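import Mathlib

/-!
# Densest k-Subgraph and modular-width: definitions
-/

namespace Pool.Agent.H7.DkS

/-- Number of edges of `G` with both end vertices in `S`, i.e. the number of edges of the induced
subgraph `G[S]`. -/
noncomputable def edgesIn {V : Type} (G : SimpleGraph V) (S : Finset V) : ℕ :=
  Set.ncard {e : Sym2 V | e ∈ G.edgeSet ∧ ∀ v ∈ e, v ∈ S}

/-- `HasWidth G w U`: the induced subgraph `G[U]` can be built by the operations
(O1) single vertex, (O2) disjoint union, (O3) complete join, (O4) substitution of graphs for the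
vertices of a graph `H`, where every graph `H` used in (O4) has at most `w` vertices. -/
inductive HasWidth {V : Type} (G : SimpleGraph V) (w : ℕ) : Set V → Prop
  /-- (O1): a single vertex. -/
  | single (v : V) : HasWidth G w {v}
  /-- (O2): disjoint union, i.e. there are no edges of `G` between the two parts. -/
  | union (U₁ U₂ : Set V) (hd : Disjoint U₁ U₂) (h : ∀ u ∈ U₁, ∀ v ∈ U₂, ¬ G.Adj u v) :
      HasWidth G w U₁ → HasWidth G w U₂ → HasWidth G w (U₁ ∪ U₂)
  /-- (O3): complete join, i.e. all edges between the two parts are present. -/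
  | join (U₁ U₂ : Set V) (hd : Disjoint U₁ U₂) (h : ∀ u ∈ U₁, ∀ v ∈ U₂, G.Adj u v) :
      HasWidth G w U₁ → HasWidth G w U₂ → HasWidth G w (U₁ ∪ U₂)
  /-- (O4): substitution; `G[⋃ U i]` arises from the graph `H` on `m ≤ w` vertices by substituting
  the graph `G[U i]` for the vertex `i`, for every `i`. -/
  | subst (m : ℕ) (hm : m ≤ w) (H : SimpleGraph (Fin m)) (U : Fin m → Set V)
      (hd : ∀ i j, i ≠ j → Disjoint (U i) (U j))
      (h : ∀ i j, i ≠ j → ∀ u ∈ U i, ∀ v ∈ U j, (G.Adj u v ↔ H.Adj i j)) :
      (∀ i, HasWidth G w (U i)) → HasWidth G w (⋃ i, U i)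

/-- The modular-width of a graph: the least `w` such that the graph has a construction by
(O1)-(O4) of width at most `w`. -/
noncomputable def modularWidth {V : Type} (G : SimpleGraph V) : ℕ :=
  sInf {w : ℕ | HasWidth G w Set.univ}

end Pool.Agent.H7.DkS
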