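import Mathlib

/-!
# The selector gadget

For a set `A` of natural numbers in `[B, W]` containing `B` and `W` we define a graph on
`{0, …, W - 1}` in which a set of `s > W - B` vertices spans at least `s² - W s + B (W - B)`
non-edges, with equality for some set of size `s` exactly when `s ∈ A`.
-/

namespace Pool.Agent.H7.DkS

open Finset

/-- Adjacency of `v < v'` in the selector gadget: either no element of `A` lies in `(v, v']`, or
`v + a < W` for some `a ∈ A` with `a > v'`. -/
def gad (A : ℕ → Prop) (W v v' : ℕ) : Prop :=
  (∀ a, A a → v < a → v' < a) ∨ ∃ a, A a ∧ v' < a ∧ v + a < W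

/-- Pairs `v < v'` of elements of `S` which are not adjacent in the gadget. -/
noncomputable def nonPairs (A : ℕ → Prop) (W : ℕ) (S : Finset ℕ) : Finset (ℕ × ℕ) := by
  classical
  exact (S ×ˢ S).filter (fun p => p.1 < p.2 ∧ ¬ gad A W p.1 p.2)

/-- Elements of `S` below `a`. -/
def below (S : Finset ℕ) (a : ℕ) : Finset ℕ := S.filter (fun v => v < a)

lemma mem_nonPairs {A : ℕ → Prop} {W : ℕ} {S : Finset ℕ} {p : ℕ × ℕ} :
    p ∈ nonPairs A W S ↔ p.1 ∈ S ∧ p.2 ∈ S ∧ p.1 < p.2 ∧ ¬ gad A W p.1 p.2 := by
  classical
  simp [nonPairs, and_assoc]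

lemma mem_below {S : Finset ℕ} {a v : ℕ} : v ∈ below S a ↔ v ∈ S ∧ v < a := by
  simp [below]

lemma below_card_le (S : Finset ℕ) {a b : ℕ} (_hab : a ≤ b) :
    (below S b).card ≤ (below S a).card + (b - a) := by
  classical
  have h : below S b ⊆ below S a ∪ Finset.Ico a b := by
    intro v hv
    rw [mem_below] at hv
    rw [Finset.mem_union, mem_below, Finset.mem_Ico]
    by_cases h : v < a
    · exact Or.inl ⟨hv.1, h⟩
    · exact Or.inr ⟨by omega, hv.2⟩
  calc (below S b).card ≤ (below S a ∪ Finset.Ico a b).card := Finset.card_le_card h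
    _ ≤ (below S a).card + (Finset.Ico a b).card := Finset.card_union_le _ _
    _ = _ := by simp

lemma below_card_mono (S : Finset ℕ) {a b : ℕ} (hab : a ≤ b) :
    (below S a).card ≤ (below S b).card := by
  apply Finset.card_le_card
  intro v hv
  rw [mem_below] at hv ⊢
  exact ⟨hv.1, by omega⟩

/-- One step: new non-adjacent pairs. -/
lemma nonPairs_step (A : ℕ → Prop) (W : ℕ) (S : Finset ℕ) {a' a : ℕ} (ha' : A a')
    (hlt : a' < a) (haW : a ≤ W) (hno : ∀ c, A c → a' < c → a ≤ c) :
    ((nonPairs A W (below S a')).card : ℤ) +
      ((below S a).card - (below S a').card) * ((below S a').card - (W - a)) ≤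
      (nonPairs A W (below S a)).card := by
  classical
  -- the new elements
  set N := (below S a) \ (below S a') with hN
  have hsub : below S a' ⊆ below S a := by
    intro v hv
    rw [mem_below] at hv ⊢
    exact ⟨hv.1, by omega⟩
  have hNcard : (N.card : ℤ) = (below S a).card - (below S a').card := by
    rw [hN, Finset.cast_card_sdiff hsub]
  -- old elements which are at least W - a
  set Q := (below S a').filter (fun v => W - a ≤ v) with hQ
  have hQcard : ((below S a').card : ℤ) - (W - a) ≤ Q.card := by
    have h1 : below S a' ⊆ Q ∪ Finset.range (W - a) := by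
      intro v hv
      rw [Finset.mem_union, hQ, Finset.mem_filter, Finset.mem_range]
      by_cases h : W - a ≤ v
      · exact Or.inl ⟨hv, h⟩
      · exact Or.inr (by omega)
    have h2 : (below S a').card ≤ Q.card + (W - a) := by
      calc (below S a').card ≤ (Q ∪ Finset.range (W - a)).card := Finset.card_le_card h1
        _ ≤ Q.card + (Finset.range (W - a)).card := Finset.card_union_le _ _
        _ = _ := by simp
    have : ((W - a : ℕ) : ℤ) = (W : ℤ) - a := by push_cast [haW]; ring
    have h3 : ((below S a').card : ℤ) ≤ Q.card + ((W - a : ℕ) : ℤ) := by exact_mod_cast h2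
    rw [this] at h3
    linarith
  have hdisj : Disjoint (nonPairs A W (below S a')) (Q ×ˢ N) := by
    rw [Finset.disjoint_left]
    rintro ⟨x, y⟩ hxy hxy'
    rw [mem_nonPairs] at hxy
    rw [Finset.mem_product, hN, Finset.mem_sdiff] at hxy'
    exact hxy'.2.2 hxy.2.1
  have hsub2 : nonPairs A W (below S a') ∪ Q ×ˢ N ⊆ nonPairs A W (below S a) := by
    rintro ⟨x, y⟩ hxy
    rw [Finset.mem_union] at hxy
    rw [mem_nonPairs]
    rcases hxy with hxy | hxy
    · rw [mem_nonPairs] at hxy
      exact ⟨hsub hxy.1, hsub hxy.2.1, hxy.2.2⟩
    · rw [Finset.mem_product, hN, Finset.mem_sdiff, hQ, Finset.mem_filter, mem_below, mem_below,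
        mem_below] at hxy
      obtain ⟨⟨⟨hx1, hx2⟩, hx3⟩, ⟨hy1, hy2⟩, hy3⟩ := hxy
      simp only at hx1 hx2 hx3 hy1 hy2 hy3
      have hy4 : a' ≤ y := by
        by_contra h
        exact hy3 ⟨hy1, by omega⟩
      refine ⟨?_, ?_, ?_, ?_⟩
      · rw [mem_below]; exact ⟨hx1, by omega⟩
      · rw [mem_below]; exact ⟨hy1, hy2⟩
      · simp only; omega
      · simp only
        rintro (h | ⟨c, hc, hc1, hc2⟩)
        · have := h a' ha' (by omega)
          omega
        · have := hno c hc (by omega)
          omega
  have hcard : (nonPairs A W (below S a')).card + Q.card * N.card ≤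
      (nonPairs A W (below S a)).card := by
    rw [← Finset.card_product, ← Finset.card_union_of_disjoint hdisj]
    exact Finset.card_le_card hsub2
  have hcard' : ((nonPairs A W (below S a')).card : ℤ) + Q.card * N.card ≤
      (nonPairs A W (below S a)).card := by exact_mod_cast hcard
  have hNnn : (0 : ℤ) ≤ N.card := by positivity
  rw [← hNcard]
  nlinarith

/-- The main lower bound, along the elements of `A`. -/
lemma lower_aux (A : ℕ → Prop) (W B : ℕ) (hB : A B) (hAB : ∀ a, A a → B ≤ a)
    (hAW : ∀ a, A a → a ≤ W) (S : Finset ℕ) (a : ℕ) (ha : A a) :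
    (((below S a).card : ℤ) ^ 2 - W * (below S a).card + B * (W - B) +
      (B - (below S B).card) * ((below S a).card - (W - B)) ≤ (nonPairs A W (below S a)).card) ∧
    (((below S a).card : ℤ) ^ 2 - W * (below S a).card + B * (W - B) +
      (B - (below S B).card) * ((below S a).card - (W - B)) = (nonPairs A W (below S a)).card →
      ∃ c, A c ∧ ((below S a).card : ℤ) + (B - (below S B).card) = c) := by
  classical
  induction a using Nat.strong_induction_on with
  | _ a ih =>
    rcases (hAB a ha).eq_or_lt with h | h
    · subst h
      have h0 : ((below S B).card : ℤ) ^ 2 - W * (below S B).card + B * (W - B) +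
          (B - (below S B).card) * ((below S B).card - (W - B)) = 0 := by ring
      rw [h0]
      refine ⟨by positivity, fun _ => ⟨B, hB, by ring⟩⟩
    · -- predecessor
      set a' := Nat.findGreatest (fun c => A c) (a - 1) with ha'
      have hBa : B ≤ a - 1 := by omega
      have hAa' : A a' := Nat.findGreatest_spec (P := fun c => A c) hBa hB
      have hle : a' ≤ a - 1 := Nat.findGreatest_le _
      have hlt : a' < a := by omega
      have hno : ∀ c, A c → a' < c → a ≤ c := by
        intro c hc hc'
        by_contra hcon
        exact Nat.findGreatest_is_greatest hc' (by omega) hc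
      obtain ⟨ih1, ih2⟩ := ih a' hlt hAa'
      have hstep := nonPairs_step A W S hAa' hlt (hAW a ha) hno
      have hBa' : B ≤ a' := hAB a' hAa'
      have hP : (below S a).card ≤ (below S B).card + (a - B) := below_card_le S (by omega)
      have hP' : ((below S a).card : ℤ) ≤ (below S B).card + (a - B) := by
        have : ((a - B : ℕ) : ℤ) = (a : ℤ) - B := by
          have : B ≤ a := by omega
          push_cast [this]; ring
        rw [← this]; exact_mod_cast hP
      have hmono : ((below S a').card : ℤ) ≤ (below S a).card := by
        exact_mod_cast below_card_mono S hlt.le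
      set P : ℤ := ((below S a).card : ℤ)
      set P' : ℤ := ((below S a').card : ℤ)
      set b : ℤ := ((below S B).card : ℤ)
      set E : ℤ := ((nonPairs A W (below S a)).card : ℤ)
      set E' : ℤ := ((nonPairs A W (below S a')).card : ℤ)
      have key : 0 ≤ (P - P') * ((a : ℤ) - B - (P - b)) := by
        apply mul_nonneg
        · linarith
        · linarith
      constructor
      · nlinarith
      · intro heq
        have h1 : P' ^ 2 - W * P' + B * (W - B) + (B - b) * (P' - (W - B)) = E' := by
          apply le_antisymm ih1
          nlinarith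
        have h2 : (P - P') * ((a : ℤ) - B - (P - b)) = 0 := by
          apply le_antisymm _ key
          nlinarith
        rcases mul_eq_zero.mp h2 with h3 | h3
        · obtain ⟨c, hc, hc'⟩ := ih2 h1
          exact ⟨c, hc, by linarith⟩
        · exact ⟨a, ha, by linarith⟩

/-- **Lower bound for the gadget.** -/
theorem gadget_lower (A : ℕ → Prop) (W B : ℕ) (hB : A B) (hW : A W) (hAB : ∀ a, A a → B ≤ a)
    (hAW : ∀ a, A a → a ≤ W) (S : Finset ℕ) (hS : ∀ v ∈ S, v < W) (hcard : W - B < S.card) :
    ((S.card : ℤ) ^ 2 - W * S.card + B * (W - B) ≤ (nonPairs A W S).card) ∧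
    ((S.card : ℤ) ^ 2 - W * S.card + B * (W - B) = (nonPairs A W S).card → A S.card) := by
  have hSb : below S W = S := by
    ext v; rw [mem_below]; exact ⟨fun h => h.1, fun h => ⟨h, hS v h⟩⟩
  obtain ⟨h1, h2⟩ := lower_aux A W B hB hAB hAW S W hW
  rw [hSb] at h1 h2
  have hBW : B ≤ W := hAB W hW
  have hb : ((below S B).card : ℤ) ≤ B := by
    have : (below S B).card ≤ B := by
      calc (below S B).card ≤ (Finset.range B).card := by
            apply Finset.card_le_card
            intro v hv
            rw [mem_below] at hv
            rw [Finset.mem_range]; exact hv.2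
        _ = B := by simp
    exact_mod_cast this
  have hc : (0 : ℤ) < (S.card : ℤ) - (W - B) := by
    have : ((W - B : ℕ) : ℤ) = (W : ℤ) - B := by push_cast [hBW]; ring
    have h3 : ((W - B : ℕ) : ℤ) < S.card := by exact_mod_cast hcard
    rw [this] at h3
    linarith
  have key : 0 ≤ ((B : ℤ) - (below S B).card) * ((S.card : ℤ) - (W - B)) :=
    mul_nonneg (by linarith) hc.le
  constructor
  · linarith
  · intro heq
    have h3 : ((B : ℤ) - (below S B).card) * ((S.card : ℤ) - (W - B)) = 0 := by
      apply le_antisymm _ key
      linarith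
    obtain ⟨c, hc1, hc2⟩ := h2 (by linarith)
    rcases mul_eq_zero.mp h3 with h4 | h4
    · rw [h4, add_zero] at hc2
      have : S.card = c := by exact_mod_cast hc2
      rwa [this]
    · exact absurd h4 (by linarith)

/-- **Upper bound for the gadget**: for `a ∈ A` the first `a` vertices span few non-edges. -/
theorem gadget_upper (A : ℕ → Prop) (W B : ℕ) (hB : A B) (hAB : ∀ a, A a → B ≤ a)
    (hAW : ∀ a, A a → a ≤ W) (h2B : W ≤ 2 * B) (a : ℕ) (ha : A a) :
    ((nonPairs A W (Finset.range a)).card : ℤ) ≤ (a : ℤ) ^ 2 - W * a + B * (W - B) := by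
  classical
  induction a using Nat.strong_induction_on with
  | _ a ih =>
    rcases (hAB a ha).eq_or_lt with h | h
    · subst h
      have h0 : nonPairs A W (Finset.range B) = ∅ := by
        rw [Finset.eq_empty_iff_forall_notMem]
        rintro ⟨x, y⟩ hxy
        rw [mem_nonPairs] at hxy
        obtain ⟨hx, hy, hxy, hn⟩ := hxy
        simp only [Finset.mem_range] at hx hy hxy hn
        apply hn
        left
        intro c hc _
        have := hAB c hc
        omega
      rw [h0]
      have : (B : ℤ) ^ 2 - W * B + B * (W - B) = 0 := by ring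
      simp [this]
    · set a' := Nat.findGreatest (fun c => A c) (a - 1) with ha'
      have hBa : B ≤ a - 1 := by omega
      have hAa' : A a' := Nat.findGreatest_spec (P := fun c => A c) hBa hB
      have hle : a' ≤ a - 1 := Nat.findGreatest_le _
      have hlt : a' < a := by omega
      have hno : ∀ c, A c → a' < c → a ≤ c := by
        intro c hc hc'
        by_contra hcon
        exact Nat.findGreatest_is_greatest hc' (by omega) hc
      have ih1 := ih a' hlt hAa'
      have haW := hAW a ha
      have hBa' := hAB a' hAa'
      have hsub : nonPairs A W (Finset.range a) ⊆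
          nonPairs A W (Finset.range a') ∪ (Finset.Ico (W - a) a') ×ˢ (Finset.Ico a' a) := by
        rintro ⟨x, y⟩ hxy
        rw [mem_nonPairs] at hxy
        obtain ⟨hx, hy, hxy, hn⟩ := hxy
        simp only [Finset.mem_range] at hx hy hxy hn
        rw [Finset.mem_union, mem_nonPairs, Finset.mem_product, Finset.mem_Ico, Finset.mem_Ico]
        simp only [Finset.mem_range]
        by_cases hy' : y < a'
        · exact Or.inl ⟨by omega, hy', hxy, hn⟩
        · refine Or.inr ⟨⟨?_, ?_⟩, by omega, hy⟩
          · by_contra hcon
            apply hn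
            right
            exact ⟨a, ha, hy, by omega⟩
          · by_contra hcon
            apply hn
            left
            intro c hc hxc
            have := hno c hc (by omega)
            omega
      have hcard : (nonPairs A W (Finset.range a)).card ≤
          (nonPairs A W (Finset.range a')).card + (a' - (W - a)) * (a - a') := by
        refine (Finset.card_le_card hsub).trans ((Finset.card_union_le _ _).trans ?_)
        rw [Finset.card_product]
        simp
      have hcard' : ((nonPairs A W (Finset.range a)).card : ℤ) ≤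
          (nonPairs A W (Finset.range a')).card + ((a' : ℤ) - (W - a)) * (a - a') := by
        have e1 : ((a' - (W - a) : ℕ) : ℤ) = (a' : ℤ) - (W - a) := by
          have h1 : W - a ≤ a' := by omega
          push_cast [h1, haW]; ring
        have e2 : ((a - a' : ℕ) : ℤ) = (a : ℤ) - a' := by
          push_cast [hlt.le]; ring
        rw [← e1, ← e2]
        exact_mod_cast hcard
      nlinarith

end Pool.Agent.H7.DkS
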