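import Mathlib
import Pool.Agent.H7.DkS.Gadget

/-!
# Counting non-edges in the grid of gadgets
-/

namespace Pool.Agent.H7.DkS

open Finset

/-- Adjacency in the grid graph: vertices are numbers `x < q * q * W`, the vertex
`x = (i * q + j) * W + v` is the vertex `v` of the gadget of cell `(i, j)`.  Vertices in the same
cell are adjacent as in the gadget, vertices in different cells are adjacent iff the cells differ in
both coordinates. -/
def gridAdj (q W : ℕ) (A : ℕ → ℕ → ℕ → Prop) (x y : ℕ) : Prop :=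
  (x / W = y / W ∧ ((x % W < y % W ∧ gad (A (x / W / q) (x / W % q)) W (x % W) (y % W)) ∨
     (y % W < x % W ∧ gad (A (x / W / q) (x / W % q)) W (y % W) (x % W)))) ∨
  (x / W / q ≠ y / W / q ∧ x / W % q ≠ y / W % q)

lemma gridAdj_symm {q W : ℕ} {A : ℕ → ℕ → ℕ → Prop} {x y : ℕ} (h : gridAdj q W A x y) :
    gridAdj q W A y x := by
  rcases h with ⟨h1, h2⟩ | h
  · left
    rw [← h1]
    exact ⟨rfl, h2.symm⟩
  · right
    exact ⟨h.1.symm, h.2.symm⟩

lemma gridAdj_irrefl {q W : ℕ} {A : ℕ → ℕ → ℕ → Prop} {x : ℕ} : ¬ gridAdj q W A x x := by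
  rintro (⟨_, h | h⟩ | h)
  · exact lt_irrefl _ h.1
  · exact lt_irrefl _ h.1
  · exact h.1 rfl

/-- Elements of `S` in cell `c`. -/
def inCell (W : ℕ) (S : Finset ℕ) (c : ℕ) : Finset ℕ := S.filter (fun x => x / W = c)

/-- The trace of `S` on cell `c`, as a set of gadget vertices. -/
def trace (W : ℕ) (S : Finset ℕ) (c : ℕ) : Finset ℕ := (inCell W S c).image (fun x => x % W)

lemma mem_trace {W : ℕ} {S : Finset ℕ} {c v : ℕ} (hv : v < W) :
    v ∈ trace W S c ↔ c * W + v ∈ S := by
  have hW : 0 < W := by omega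
  simp only [trace, inCell, Finset.mem_image, Finset.mem_filter]
  constructor
  · rintro ⟨x, ⟨hx, hxc⟩, hxv⟩
    have := Nat.div_add_mod x W
    rw [hxc, hxv, mul_comm] at this
    rwa [this]
  · intro h
    refine ⟨c * W + v, ⟨h, ?_⟩, ?_⟩
    · rw [Nat.add_comm, Nat.add_mul_div_right _ _ hW, Nat.div_eq_of_lt hv, zero_add]
    · rw [Nat.add_comm, Nat.add_mul_mod_self_right, Nat.mod_eq_of_lt hv]

lemma trace_lt {W : ℕ} (hW : 0 < W) {S : Finset ℕ} {c v : ℕ} (h : v ∈ trace W S c) : v < W := by
  simp only [trace, Finset.mem_image] at h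
  obtain ⟨x, _, rfl⟩ := h
  exact Nat.mod_lt _ hW

lemma card_trace {W : ℕ} (S : Finset ℕ) (c : ℕ) : (trace W S c).card = (inCell W S c).card := by
  apply Finset.card_image_of_injOn
  intro x hx y hy hxy
  simp only [inCell, Finset.coe_filter, Set.mem_ofPred_eq] at hx hy
  simp only at hxy
  rw [← Nat.div_add_mod x W, ← Nat.div_add_mod y W, hx.2, hy.2, hxy]

/-- Ordered pairs of distinct non-adjacent vertices of `S`. -/
noncomputable def NA (q W : ℕ) (A : ℕ → ℕ → ℕ → Prop) (S : Finset ℕ) : Finset (ℕ × ℕ) := by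
  classical
  exact (S ×ˢ S).filter (fun p => p.1 ≠ p.2 ∧ ¬ gridAdj q W A p.1 p.2)

lemma mem_NA {q W : ℕ} {A : ℕ → ℕ → ℕ → Prop} {S : Finset ℕ} {p : ℕ × ℕ} :
    p ∈ NA q W A S ↔ p.1 ∈ S ∧ p.2 ∈ S ∧ p.1 ≠ p.2 ∧ ¬ gridAdj q W A p.1 p.2 := by
  classical
  simp [NA, and_assoc]

/-- The part of `NA` between the cells `c` and `c'`. -/
noncomputable def NAcell (q W : ℕ) (A : ℕ → ℕ → ℕ → Prop) (S : Finset ℕ) (c c' : ℕ) :
    Finset (ℕ × ℕ) := (NA q W A S).filter (fun p => p.1 / W = c ∧ p.2 / W = c')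

lemma card_NA (q W : ℕ) (A : ℕ → ℕ → ℕ → Prop) (S : Finset ℕ) (hS : ∀ x ∈ S, x / W < q * q) :
    (NA q W A S).card =
      ∑ c ∈ range (q * q), ∑ c' ∈ range (q * q), (NAcell q W A S c c').card := by
  classical
  have h1 : ∀ p ∈ NA q W A S, (p.1 / W, p.2 / W) ∈ range (q * q) ×ˢ range (q * q) := by
    intro p hp
    rw [mem_NA] at hp
    rw [Finset.mem_product, Finset.mem_range, Finset.mem_range]
    exact ⟨hS _ hp.1, hS _ hp.2.1⟩
  rw [Finset.card_eq_sum_card_fiberwise h1, Finset.sum_product]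
  apply Finset.sum_congr rfl
  intro c _
  apply Finset.sum_congr rfl
  intro c' _
  congr 1
  ext p
  simp [NAcell, Prod.ext_iff]

/-- Different cells. -/
lemma card_NAcell_ne (q W : ℕ) (A : ℕ → ℕ → ℕ → Prop) (S : Finset ℕ) {c c' : ℕ} (hcc : c ≠ c') :
    (NAcell q W A S c c').card =
      if c / q = c' / q ∨ c % q = c' % q then (trace W S c).card * (trace W S c').card else 0 := by
  classical
  split_ifs with h
  · rw [card_trace, card_trace, ← Finset.card_product]
    congr 1
    ext p
    simp only [NAcell, Finset.mem_filter, mem_NA, inCell, Finset.mem_product]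
    constructor
    · rintro ⟨⟨h1, h2, h3, h4⟩, h5, h6⟩
      exact ⟨⟨h1, h5⟩, h2, h6⟩
    · rintro ⟨⟨h1, h5⟩, h2, h6⟩
      refine ⟨⟨h1, h2, ?_, ?_⟩, h5, h6⟩
      · intro he
        rw [he] at h5
        exact hcc (h5.symm.trans h6)
      · rintro (⟨h7, _⟩ | h7)
        · rw [h5, h6] at h7
          exact hcc h7
        · rw [h5, h6] at h7
          tauto
  · rw [Finset.card_eq_zero, Finset.eq_empty_iff_forall_notMem]
    intro p hp
    simp only [NAcell, Finset.mem_filter, mem_NA] at hp
    obtain ⟨⟨h1, h2, h3, h4⟩, h5, h6⟩ := hp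
    apply h4
    right
    rw [h5, h6]
    tauto

/-- The same cell. -/
lemma card_NAcell_eq (q W : ℕ) (hW : 0 < W) (A : ℕ → ℕ → ℕ → Prop) (S : Finset ℕ) (c : ℕ) :
    (NAcell q W A S c c).card = 2 * (nonPairs (A (c / q) (c % q)) W (trace W S c)).card := by
  classical
  set NP := nonPairs (A (c / q) (c % q)) W (trace W S c) with hNP
  let f : ℕ × ℕ → ℕ × ℕ := fun p => (c * W + p.1, c * W + p.2)
  let g : ℕ × ℕ → ℕ × ℕ := fun p => (c * W + p.2, c * W + p.1)
  have hf : Function.Injective f := by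
    rintro ⟨a, b⟩ ⟨a', b'⟩ h
    simp only [f, Prod.mk.injEq] at h
    ext <;> simp <;> omega
  have hg : Function.Injective g := by
    rintro ⟨a, b⟩ ⟨a', b'⟩ h
    simp only [g, Prod.mk.injEq] at h
    ext <;> simp <;> omega
  have hdiv : ∀ v, v < W → (c * W + v) / W = c := by
    intro v hv
    rw [Nat.add_comm, Nat.add_mul_div_right _ _ hW, Nat.div_eq_of_lt hv, zero_add]
  have hmod : ∀ v, v < W → (c * W + v) % W = v := by
    intro v hv
    rw [Nat.add_comm, Nat.add_mul_mod_self_right, Nat.mod_eq_of_lt hv]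
  have hdisj : Disjoint (NP.image f) (NP.image g) := by
    rw [Finset.disjoint_left]
    intro p hp hp'
    rw [Finset.mem_image] at hp hp'
    obtain ⟨⟨a, b⟩, h1, rfl⟩ := hp
    obtain ⟨⟨a', b'⟩, h2, h3⟩ := hp'
    rw [hNP, mem_nonPairs] at h1 h2
    simp only [f, g, Prod.mk.injEq] at h3
    have e1 := h1.2.2.1
    have e2 := h2.2.2.1
    simp only at e1 e2
    omega
  have hunion : NAcell q W A S c c = NP.image f ∪ NP.image g := by
    ext ⟨x, y⟩
    simp only [NAcell, Finset.mem_filter, mem_NA, Finset.mem_union, Finset.mem_image, hNP,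
      mem_nonPairs]
    constructor
    · rintro ⟨⟨h1, h2, h3, h4⟩, h5, h6⟩
      have hx : x = c * W + x % W := by
        have := Nat.div_add_mod x W
        rw [h5, mul_comm] at this; omega
      have hy : y = c * W + y % W := by
        have := Nat.div_add_mod y W
        rw [h6, mul_comm] at this; omega
      have hxW := Nat.mod_lt x hW
      have hyW := Nat.mod_lt y hW
      have hne : x % W ≠ y % W := by
        intro h; apply h3; rw [hx, hy, h]
      rcases Nat.lt_or_gt_of_ne hne with hlt | hgt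
      · left
        refine ⟨(x % W, y % W), ⟨?_, ?_, hlt, ?_⟩, ?_⟩
        · rw [mem_trace hxW, ← hx]; exact h1
        · rw [mem_trace hyW, ← hy]; exact h2
        · intro hgad
          apply h4
          left
          rw [h5, h6]
          exact ⟨rfl, Or.inl ⟨hlt, hgad⟩⟩
        · simp only [f]; rw [← hx, ← hy]
      · right
        refine ⟨(y % W, x % W), ⟨?_, ?_, hgt, ?_⟩, ?_⟩
        · rw [mem_trace hyW, ← hy]; exact h2
        · rw [mem_trace hxW, ← hx]; exact h1
        · intro hgad
          apply h4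
          left
          rw [h5, h6]
          exact ⟨rfl, Or.inr ⟨hgt, hgad⟩⟩
        · simp only [g]; rw [← hx, ← hy]
    · rintro (⟨⟨a, b⟩, ⟨h1, h2, h3, h4⟩, h5⟩ | ⟨⟨a, b⟩, ⟨h1, h2, h3, h4⟩, h5⟩)
      · simp only at h1 h2 h3 h4
        have ha := trace_lt hW h1
        have hb := trace_lt hW h2
        simp only [f, Prod.mk.injEq] at h5
        obtain ⟨rfl, rfl⟩ := h5
        refine ⟨⟨(mem_trace ha).mp h1, (mem_trace hb).mp h2, by omega, ?_⟩, hdiv a ha, hdiv b hb⟩
        rintro (⟨_, h | h⟩ | h)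
        · rw [hdiv a ha, hmod a ha, hmod b hb] at h
          exact h4 h.2
        · rw [hmod a ha, hmod b hb] at h
          omega
        · rw [hdiv a ha, hdiv b hb] at h
          exact h.1 rfl
      · simp only at h1 h2 h3 h4
        have ha := trace_lt hW h1
        have hb := trace_lt hW h2
        simp only [g, Prod.mk.injEq] at h5
        obtain ⟨rfl, rfl⟩ := h5
        refine ⟨⟨(mem_trace hb).mp h2, (mem_trace ha).mp h1, by omega, ?_⟩, hdiv b hb, hdiv a ha⟩
        rintro (⟨_, h | h⟩ | h)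
        · rw [hmod a ha, hmod b hb] at h
          omega
        · rw [hdiv b hb, hmod a ha, hmod b hb] at h
          exact h4 h.2
        · rw [hdiv a ha, hdiv b hb] at h
          exact h.1 rfl
  rw [hunion, Finset.card_union_of_disjoint hdisj, Finset.card_image_of_injective _ hf,
    Finset.card_image_of_injective _ hg]
  ring

lemma sum_range_mul (q : ℕ) (f : ℕ → ℤ) :
    ∑ c ∈ range (q * q), f c = ∑ i ∈ range q, ∑ j ∈ range q, f (i * q + j) := by
  rcases Nat.eq_zero_or_pos q with hq | hq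
  · subst hq; simp
  rw [← Finset.sum_product']
  refine Finset.sum_nbij' (fun c => (c / q, c % q)) (fun p => p.1 * q + p.2) ?_ ?_ ?_ ?_ ?_
  · intro c hc
    rw [Finset.mem_range] at hc
    rw [Finset.mem_product, Finset.mem_range, Finset.mem_range]
    exact ⟨Nat.div_lt_of_lt_mul hc, Nat.mod_lt _ hq⟩
  · rintro ⟨i, j⟩ hp
    rw [Finset.mem_product, Finset.mem_range, Finset.mem_range] at hp
    rw [Finset.mem_range]
    simp only at hp ⊢
    nlinarith
  · intro c _
    simp only
    rw [mul_comm]; exact Nat.div_add_mod c q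
  · rintro ⟨i, j⟩ hp
    rw [Finset.mem_product, Finset.mem_range, Finset.mem_range] at hp
    simp only at hp
    ext
    · simp only
      rw [Nat.add_comm, Nat.add_mul_div_right _ _ hq, Nat.div_eq_of_lt hp.2, zero_add]
    · simp only
      rw [Nat.add_comm, Nat.add_mul_mod_self_right, Nat.mod_eq_of_lt hp.2]
  · intro c _
    simp only
    rw [mul_comm, Nat.div_add_mod c q]

lemma cell_div {q i j : ℕ} (hj : j < q) : (i * q + j) / q = i := by
  have hq : 0 < q := by omega
  rw [Nat.add_comm, Nat.add_mul_div_right _ _ hq, Nat.div_eq_of_lt hj, zero_add]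

lemma cell_mod {q i j : ℕ} (hj : j < q) : (i * q + j) % q = j := by
  rw [Nat.add_comm, Nat.add_mul_mod_self_right, Nat.mod_eq_of_lt hj]

/-- The number of elements of `S` in cell `(i, j)`. -/
def cnt (q W : ℕ) (S : Finset ℕ) (i j : ℕ) : ℕ := (trace W S (i * q + j)).card

/-- Exact formula for the number of ordered non-adjacent pairs. -/
lemma card_NA_eq (q W : ℕ) (hW : 0 < W) (A : ℕ → ℕ → ℕ → Prop) (S : Finset ℕ)
    (hS : ∀ x ∈ S, x / W < q * q) :
    ((NA q W A S).card : ℤ) =
      2 * (∑ i ∈ range q, ∑ j ∈ range q,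
        ((nonPairs (A i j) W (trace W S (i * q + j))).card : ℤ)) +
      ∑ i ∈ range q, (∑ j ∈ range q, (cnt q W S i j : ℤ)) ^ 2 +
      ∑ j ∈ range q, (∑ i ∈ range q, (cnt q W S i j : ℤ)) ^ 2 -
      2 * ∑ i ∈ range q, ∑ j ∈ range q, (cnt q W S i j : ℤ) ^ 2 := by
  classical
  rw [card_NA q W A S hS]
  push_cast
  rw [sum_range_mul]
  have h1 : ∀ i ∈ range q, ∀ j ∈ range q,
      ∑ c' ∈ range (q * q), ((NAcell q W A S (i * q + j) c').card : ℤ) =
      2 * ((nonPairs (A i j) W (trace W S (i * q + j))).card : ℤ) +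
      (cnt q W S i j : ℤ) * (∑ j' ∈ range q, (cnt q W S i j' : ℤ)) +
      (cnt q W S i j : ℤ) * (∑ i' ∈ range q, (cnt q W S i' j : ℤ)) -
      2 * (cnt q W S i j : ℤ) ^ 2 := by
    intro i hi j hj
    rw [sum_range_mul]
    have hi' := hi
    have hj' := hj
    rw [Finset.mem_range] at hi' hj'
    have h2 : ∀ i' ∈ range q, ∀ j' ∈ range q,
        ((NAcell q W A S (i * q + j) (i' * q + j')).card : ℤ) =
        (if i' = i then (if j' = j then
          2 * ((nonPairs (A i j) W (trace W S (i * q + j))).card : ℤ) else 0) else 0) +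
        (if i' = i then (cnt q W S i j : ℤ) * (cnt q W S i j' : ℤ) else 0) +
        (if j' = j then (cnt q W S i j : ℤ) * (cnt q W S i' j : ℤ) else 0) -
        (if i' = i then (if j' = j then 2 * (cnt q W S i j : ℤ) ^ 2 else 0) else 0) := by
      intro i' hi2 j' hj2
      rw [Finset.mem_range] at hi2 hj2
      by_cases hc : i * q + j = i' * q + j'
      · have e1 : i = i' := by
          have := congrArg (· / q) hc
          rwa [cell_div hj', cell_div hj2] at this
        have e2 : j = j' := by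
          have := congrArg (· % q) hc
          rwa [cell_mod hj', cell_mod hj2] at this
        subst e1; subst e2
        rw [card_NAcell_eq q W hW, cell_div hj', cell_mod hj']
        simp only [if_true]
        push_cast
        ring
      · rw [card_NAcell_ne q W A S hc, cell_div hj', cell_mod hj', cell_div hj2, cell_mod hj2]
        by_cases h1 : i = i'
        · subst h1
          have h2 : j ≠ j' := by
            intro h; apply hc; rw [h]
          have h2' : ¬ j' = j := fun h => h2 h.symm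
          simp only [if_true, true_or, if_neg h2']
          simp only [cnt]
          push_cast
          ring
        · have h1' : ¬ i' = i := fun h => h1 h.symm
          by_cases h2 : j = j'
          · subst h2
            simp only [if_neg h1', or_true, if_true]
            simp only [cnt]
            push_cast
            ring
          · have h2' : ¬ j' = j := fun h => h2 h.symm
            have h3 : ¬ (i = i' ∨ j = j') := by tauto
            simp only [if_neg h1', if_neg h2', if_neg h3]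
            simp
    rw [Finset.sum_congr rfl (fun i' hi2 => Finset.sum_congr rfl (fun j' hj2 => h2 i' hi2 j' hj2))]
    simp only [Finset.sum_add_distrib, Finset.sum_sub_distrib]
    have e1 : ∀ X : ℤ, ∑ i' ∈ range q, ∑ j' ∈ range q,
        (if i' = i then (if j' = j then X else 0) else 0) = X := by
      intro X
      rw [Finset.sum_eq_single i]
      · simp [hj']
      · intro b _ hb
        simp [hb]
      · intro h
        exact absurd hi h
    have e2 : ∑ i' ∈ range q, ∑ j' ∈ range q,
        (if i' = i then (cnt q W S i j : ℤ) * (cnt q W S i j' : ℤ) else 0) =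
        (cnt q W S i j : ℤ) * (∑ j' ∈ range q, (cnt q W S i j' : ℤ)) := by
      rw [Finset.sum_eq_single i]
      · simp [Finset.mul_sum]
      · intro b _ hb
        simp [hb]
      · intro h
        exact absurd hi h
    have e3 : ∑ i' ∈ range q, ∑ j' ∈ range q,
        (if j' = j then (cnt q W S i j : ℤ) * (cnt q W S i' j : ℤ) else 0) =
        (cnt q W S i j : ℤ) * (∑ i' ∈ range q, (cnt q W S i' j : ℤ)) := by
      rw [Finset.mul_sum]
      apply Finset.sum_congr rfl
      intro i' _
      rw [Finset.sum_ite_eq' (range q) j]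
      simp [hj']
    rw [e1, e2, e3, e1]
  rw [Finset.sum_congr rfl (fun i hi => Finset.sum_congr rfl (fun j hj => h1 i hi j hj))]
  simp only [Finset.sum_add_distrib, Finset.sum_sub_distrib]
  have f1 : ∑ i ∈ range q, ∑ j ∈ range q,
      (cnt q W S i j : ℤ) * (∑ j' ∈ range q, (cnt q W S i j' : ℤ)) =
      ∑ i ∈ range q, (∑ j ∈ range q, (cnt q W S i j : ℤ)) ^ 2 := by
    apply Finset.sum_congr rfl
    intro i _
    rw [← Finset.sum_mul, sq]
  have f2 : ∑ i ∈ range q, ∑ j ∈ range q,
      (cnt q W S i j : ℤ) * (∑ i' ∈ range q, (cnt q W S i' j : ℤ)) =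
      ∑ j ∈ range q, (∑ i ∈ range q, (cnt q W S i j : ℤ)) ^ 2 := by
    rw [Finset.sum_comm]
    apply Finset.sum_congr rfl
    intro j _
    rw [← Finset.sum_mul, sq]
  rw [f1, f2]
  simp only [← Finset.mul_sum]

/-- The total count. -/
lemma sum_cnt (q W : ℕ) (S : Finset ℕ) (hS : ∀ x ∈ S, x / W < q * q) :
    ∑ i ∈ range q, ∑ j ∈ range q, (cnt q W S i j : ℤ) = S.card := by
  classical
  have h1 : ∀ x ∈ S, x / W ∈ range (q * q) := fun x hx => Finset.mem_range.mpr (hS x hx)
  rw [Finset.card_eq_sum_card_fiberwise h1]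
  push_cast
  rw [sum_range_mul]
  simp only [cnt, card_trace, inCell]

/-- Sums of squares of numbers with a given sum. -/
lemma sum_sq_ge (q : ℕ) (f : ℕ → ℤ) (R : ℤ) (h : ∑ i ∈ range q, f i = q * R) :
    q * R ^ 2 ≤ ∑ i ∈ range q, f i ^ 2 ∧
    (q * R ^ 2 = ∑ i ∈ range q, f i ^ 2 → ∀ i ∈ range q, f i = R) := by
  have h1 : ∑ i ∈ range q, (f i - R) ^ 2 = ∑ i ∈ range q, f i ^ 2 - q * R ^ 2 := by
    have : ∀ i ∈ range q, (f i - R) ^ 2 = f i ^ 2 - 2 * R * f i + R ^ 2 := by
      intro i _; ring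
    rw [Finset.sum_congr rfl this, Finset.sum_add_distrib, Finset.sum_sub_distrib,
      ← Finset.mul_sum, h]
    simp
    ring
  have h2 : 0 ≤ ∑ i ∈ range q, (f i - R) ^ 2 := Finset.sum_nonneg (fun i _ => sq_nonneg _)
  constructor
  · linarith
  · intro h3 i hi
    have h4 : ∑ i ∈ range q, (f i - R) ^ 2 = 0 := by linarith
    have h5 := (Finset.sum_eq_zero_iff_of_nonneg (fun i _ => sq_nonneg (f i - R))).mp h4 i hi
    have h6 : f i - R = 0 := by
      exact pow_eq_zero_iff (two_ne_zero) |>.mp h5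
    linarith

/-- Twice the threshold for the number of non-edges. -/
def twoN (q W B R : ℤ) : ℤ := 2 * (q * R ^ 2) - 2 * W * (q * R) + 2 * (q * q * (B * (W - B)))

/-- Hypotheses on the sets `A i j`. -/
structure GoodSets (q W B : ℕ) (A : ℕ → ℕ → ℕ → Prop) : Prop where
  memB : ∀ i j, A i j B
  memW : ∀ i j, A i j W
  ge : ∀ i j a, A i j a → B ≤ a
  le : ∀ i j a, A i j a → a ≤ W
  hBW : W < 2 * B

/-- **Lower bound for the grid.** -/
theorem grid_lower (q W B R : ℕ) (A : ℕ → ℕ → ℕ → Prop) (hA : GoodSets q W B A)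
    (S : Finset ℕ) (hS : ∀ x ∈ S, x / W < q * q)
    (hcard : S.card = q * R) (hR : q * q * W < q * R + B) :
    (twoN q W B R ≤ (NA q W A S).card) ∧
    (twoN q W B R = (NA q W A S).card →
      (∀ i < q, ∀ j < q, A i j (cnt q W S i j)) ∧ (∀ i < q, ∑ j ∈ range q, cnt q W S i j = R) ∧
        ∀ j < q, ∑ i ∈ range q, cnt q W S i j = R) := by
  classical
  have hWB : B ≤ W := hA.ge 0 0 W (hA.memW 0 0)
  have hW : 0 < W := by have := hA.hBW; omega
  -- each cell is large
  have hcntle : ∀ i j, cnt q W S i j ≤ W := by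
    intro i j
    have : trace W S (i * q + j) ⊆ range W := by
      intro v hv
      exact Finset.mem_range.mpr (trace_lt hW hv)
    have := Finset.card_le_card this
    simpa [cnt] using this
  have hsum := sum_cnt q W S hS
  have hbig : ∀ i < q, ∀ j < q, W - B < cnt q W S i j := by
    intro i hi j hj
    by_contra hcon
    push Not at hcon
    have h1 : ∑ i' ∈ range q, ∑ j' ∈ range q, ((W : ℤ) - cnt q W S i' j') ≥
        (W : ℤ) - cnt q W S i j := by
      have h2 : ∀ i' ∈ range q, ∀ j' ∈ range q, (0 : ℤ) ≤ (W : ℤ) - cnt q W S i' j' := by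
        intro i' _ j' _
        have := hcntle i' j'
        have : (cnt q W S i' j' : ℤ) ≤ W := by exact_mod_cast this
        linarith
      calc (W : ℤ) - cnt q W S i j ≤ ∑ j' ∈ range q, ((W : ℤ) - cnt q W S i j') :=
            Finset.single_le_sum (f := fun j' => (W : ℤ) - cnt q W S i j')
              (fun j' hj' => h2 i (Finset.mem_range.mpr hi) j' hj') (Finset.mem_range.mpr hj)
        _ ≤ _ := Finset.single_le_sum (f := fun i' => ∑ j' ∈ range q, ((W : ℤ) - cnt q W S i' j'))
              (fun i' hi' => Finset.sum_nonneg (h2 i' hi')) (Finset.mem_range.mpr hi)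
    have h3 : ∑ i' ∈ range q, ∑ j' ∈ range q, ((W : ℤ) - cnt q W S i' j') =
        q * q * W - q * R := by
      simp only [Finset.sum_sub_distrib, hsum, hcard]
      simp
      ring
    rw [h3] at h1
    have h4 : ((q * q * W : ℕ) : ℤ) < ((q * R + B : ℕ) : ℤ) := by exact_mod_cast hR
    push_cast at h4
    have h5 : (cnt q W S i j : ℤ) ≤ (W : ℤ) - B := by
      have : ((W - B : ℕ) : ℤ) = (W : ℤ) - B := by push_cast [hWB]; ring
      rw [← this]; exact_mod_cast hcon
    linarith
  -- gadget lower bounds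
  have hgad : ∀ i < q, ∀ j < q,
      ((cnt q W S i j : ℤ) ^ 2 - W * cnt q W S i j + B * (W - B) ≤
        (nonPairs (A i j) W (trace W S (i * q + j))).card) ∧
      ((cnt q W S i j : ℤ) ^ 2 - W * cnt q W S i j + B * (W - B) =
        (nonPairs (A i j) W (trace W S (i * q + j))).card → A i j (cnt q W S i j)) := by
    intro i hi j hj
    exact gadget_lower (A i j) W B (hA.memB i j) (hA.memW i j) (hA.ge i j) (hA.le i j)
      (trace W S (i * q + j)) (fun v hv => trace_lt hW hv) (hbig i hi j hj)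
  have hNA := card_NA_eq q W hW A S hS
  -- row and column sums
  have hrow : ∑ i ∈ range q, (∑ j ∈ range q, (cnt q W S i j : ℤ)) = q * (R : ℤ) := by
    rw [hsum, hcard]; push_cast; ring
  have hcol : ∑ j ∈ range q, (∑ i ∈ range q, (cnt q W S i j : ℤ)) = q * (R : ℤ) := by
    rw [Finset.sum_comm]; exact hrow
  obtain ⟨r1, r2⟩ := sum_sq_ge q (fun i => ∑ j ∈ range q, (cnt q W S i j : ℤ)) R hrow
  obtain ⟨c1, c2⟩ := sum_sq_ge q (fun j => ∑ i ∈ range q, (cnt q W S i j : ℤ)) R hcol
  set D : ℕ → ℕ → ℤ := fun i j => ((nonPairs (A i j) W (trace W S (i * q + j))).card : ℤ) -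
    ((cnt q W S i j : ℤ) ^ 2 - W * cnt q W S i j + B * (W - B)) with hD
  have hDnn : ∀ i ∈ range q, ∀ j ∈ range q, 0 ≤ D i j := by
    intro i hi j hj
    have := (hgad i (Finset.mem_range.mp hi) j (Finset.mem_range.mp hj)).1
    simp only [hD]
    linarith
  have hDsum : ∑ i ∈ range q, ∑ j ∈ range q, D i j =
      (∑ i ∈ range q, ∑ j ∈ range q,
        ((nonPairs (A i j) W (trace W S (i * q + j))).card : ℤ)) -
      (∑ i ∈ range q, ∑ j ∈ range q, (cnt q W S i j : ℤ) ^ 2) + W * (q * R) -
      q * q * (B * (W - B)) := by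
    have e0 : ∀ i ∈ range q, ∀ j ∈ range q, D i j =
        ((nonPairs (A i j) W (trace W S (i * q + j))).card : ℤ) - (cnt q W S i j : ℤ) ^ 2 +
          W * (cnt q W S i j : ℤ) - B * (W - B) := by
      intro i _ j _; simp only [hD]; ring
    rw [Finset.sum_congr rfl (fun i hi => Finset.sum_congr rfl (fun j hj => e0 i hi j hj))]
    simp only [Finset.sum_add_distrib, Finset.sum_sub_distrib, ← Finset.mul_sum, hsum, hcard]
    simp
    ring
  have hDtot : 0 ≤ ∑ i ∈ range q, ∑ j ∈ range q, D i j :=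
    Finset.sum_nonneg (fun i hi => Finset.sum_nonneg (hDnn i hi))
  have hmain : ((NA q W A S).card : ℤ) = twoN q W B R +
      2 * ∑ i ∈ range q, ∑ j ∈ range q, D i j +
      (∑ i ∈ range q, (∑ j ∈ range q, (cnt q W S i j : ℤ)) ^ 2 - q * (R : ℤ) ^ 2) +
      (∑ j ∈ range q, (∑ i ∈ range q, (cnt q W S i j : ℤ)) ^ 2 - q * (R : ℤ) ^ 2) := by
    rw [hNA, hDsum, twoN]
    ring
  constructor
  · rw [hmain]; linarith
  · intro heq
    rw [hmain] at heq
    have d0 : ∑ i ∈ range q, ∑ j ∈ range q, D i j = 0 := by linarith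
    have r0 : q * (R : ℤ) ^ 2 = ∑ i ∈ range q, (∑ j ∈ range q, (cnt q W S i j : ℤ)) ^ 2 := by
      linarith
    have c0 : q * (R : ℤ) ^ 2 = ∑ j ∈ range q, (∑ i ∈ range q, (cnt q W S i j : ℤ)) ^ 2 := by
      linarith
    refine ⟨?_, ?_, ?_⟩
    · intro i hi j hj
      have h1 := (Finset.sum_eq_zero_iff_of_nonneg
        (fun i hi => Finset.sum_nonneg (hDnn i hi))).mp d0 i (Finset.mem_range.mpr hi)
      have h2 := (Finset.sum_eq_zero_iff_of_nonneg
        (hDnn i (Finset.mem_range.mpr hi))).mp h1 j (Finset.mem_range.mpr hj)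
      apply (hgad i hi j hj).2
      simp only [hD] at h2
      linarith
    · intro i hi
      have := r2 r0 i (Finset.mem_range.mpr hi)
      exact_mod_cast this
    · intro j hj
      have := c2 c0 j (Finset.mem_range.mpr hj)
      exact_mod_cast this

/-- The set with prescribed cell counts. -/
def fillSet (q W : ℕ) (s : ℕ → ℕ → ℕ) : Finset ℕ :=
  (range (q * q * W)).filter (fun x => x % W < s (x / W / q) (x / W % q))

/-- **Upper bound for the grid.** -/
theorem grid_upper (q W B R : ℕ) (A : ℕ → ℕ → ℕ → Prop) (hA : GoodSets q W B A)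
    (s : ℕ → ℕ → ℕ) (hs : ∀ i < q, ∀ j < q, A i j (s i j))
    (hrow : ∀ i < q, ∑ j ∈ range q, s i j = R) (hcol : ∀ j < q, ∑ i ∈ range q, s i j = R) :
    (fillSet q W s).card = q * R ∧ ((NA q W A (fillSet q W s)).card : ℤ) ≤ twoN q W B R := by
  classical
  have hWB : B ≤ W := hA.ge 0 0 W (hA.memW 0 0)
  have hW : 0 < W := by have := hA.hBW; omega
  set S := fillSet q W s with hSdef
  have hS : ∀ x ∈ S, x / W < q * q := by
    intro x hx
    rw [hSdef, fillSet, Finset.mem_filter, Finset.mem_range] at hx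
    exact Nat.div_lt_of_lt_mul (by rw [mul_comm W]; exact hx.1)
  have htr : ∀ i < q, ∀ j < q, trace W S (i * q + j) = range (s i j) := by
    intro i hi j hj
    have hsW : s i j ≤ W := hA.le i j _ (hs i hi j hj)
    ext v
    rw [Finset.mem_range]
    constructor
    · intro hv
      have hvW := trace_lt hW hv
      rw [mem_trace hvW, hSdef, fillSet, Finset.mem_filter] at hv
      have h2 := hv.2
      have e1 : ((i * q + j) * W + v) % W = v := by
        rw [Nat.add_comm, Nat.add_mul_mod_self_right, Nat.mod_eq_of_lt hvW]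
      have e2 : ((i * q + j) * W + v) / W = i * q + j := by
        rw [Nat.add_comm, Nat.add_mul_div_right _ _ hW, Nat.div_eq_of_lt hvW, zero_add]
      rw [e1, e2, cell_div hj, cell_mod hj] at h2
      exact h2
    · intro hv
      have hvW : v < W := by omega
      rw [mem_trace hvW, hSdef, fillSet, Finset.mem_filter]
      have e1 : ((i * q + j) * W + v) % W = v := by
        rw [Nat.add_comm, Nat.add_mul_mod_self_right, Nat.mod_eq_of_lt hvW]
      have e2 : ((i * q + j) * W + v) / W = i * q + j := by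
        rw [Nat.add_comm, Nat.add_mul_div_right _ _ hW, Nat.div_eq_of_lt hvW, zero_add]
      rw [e1, e2, cell_div hj, cell_mod hj]
      refine ⟨?_, hv⟩
      rw [Finset.mem_range]
      have h3 : i * q + j + 1 ≤ q * q := by nlinarith
      calc (i * q + j) * W + v < (i * q + j) * W + W := by omega
        _ = (i * q + j + 1) * W := by ring
        _ ≤ q * q * W := Nat.mul_le_mul_right _ h3
  have hcnt : ∀ i < q, ∀ j < q, cnt q W S i j = s i j := by
    intro i hi j hj
    rw [cnt, htr i hi j hj, Finset.card_range]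
  have hrow' : ∀ i ∈ range q, ∑ j ∈ range q, (cnt q W S i j : ℤ) = R := by
    intro i hi
    rw [← hrow i (Finset.mem_range.mp hi)]
    push_cast
    apply Finset.sum_congr rfl
    intro j hj
    rw [hcnt i (Finset.mem_range.mp hi) j (Finset.mem_range.mp hj)]
  have hcol' : ∀ j ∈ range q, ∑ i ∈ range q, (cnt q W S i j : ℤ) = R := by
    intro j hj
    rw [← hcol j (Finset.mem_range.mp hj)]
    push_cast
    apply Finset.sum_congr rfl
    intro i hi
    rw [hcnt i (Finset.mem_range.mp hi) j (Finset.mem_range.mp hj)]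
  have hsum := sum_cnt q W S hS
  have hcardZ : (S.card : ℤ) = q * R := by
    rw [← hsum, Finset.sum_congr rfl hrow']
    simp
  refine ⟨by exact_mod_cast hcardZ, ?_⟩
  rw [card_NA_eq q W hW A S hS]
  have h1 : ∑ i ∈ range q, ∑ j ∈ range q,
        ((nonPairs (A i j) W (trace W S (i * q + j))).card : ℤ) ≤
      ∑ i ∈ range q, ∑ j ∈ range q, ((cnt q W S i j : ℤ) ^ 2 - W * cnt q W S i j +
        B * (W - B)) := by
    apply Finset.sum_le_sum
    intro i hi
    apply Finset.sum_le_sum
    intro j hj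
    rw [Finset.mem_range] at hi hj
    rw [htr i hi j hj, hcnt i hi j hj]
    exact gadget_upper (A i j) W B (hA.memB i j) (hA.ge i j) (hA.le i j) hA.hBW.le _
      (hs i hi j hj)
  have h2 : ∑ i ∈ range q, ∑ j ∈ range q, ((cnt q W S i j : ℤ) ^ 2 - W * cnt q W S i j +
        B * (W - B)) = (∑ i ∈ range q, ∑ j ∈ range q, (cnt q W S i j : ℤ) ^ 2) - W * (q * R) +
        q * q * (B * (W - B)) := by
    simp only [Finset.sum_add_distrib, Finset.sum_sub_distrib, ← Finset.mul_sum, hsum, hcardZ]
    simp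
    ring
  have h3 : ∑ i ∈ range q, (∑ j ∈ range q, (cnt q W S i j : ℤ)) ^ 2 = q * (R : ℤ) ^ 2 := by
    rw [Finset.sum_congr rfl (fun i hi => by rw [hrow' i hi])]
    simp
  have h4 : ∑ j ∈ range q, (∑ i ∈ range q, (cnt q W S i j : ℤ)) ^ 2 = q * (R : ℤ) ^ 2 := by
    rw [Finset.sum_congr rfl (fun j hj => by rw [hcol' j hj])]
    simp
  rw [h3, h4, twoN]
  linarith

end Pool.Agent.H7.DkS
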