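import Mathlib
import Pool.Agent.H7.DkS.Defs
import Pool.Agent.H7.DkS.Grid

/-!
# The grid graph, edge counts and modular-width
-/

namespace Pool.Agent.H7.DkS

open Finset

/-- The grid graph on `q * q * W` vertices. -/
def gridGraph (q W : ℕ) (A : ℕ → ℕ → ℕ → Prop) : SimpleGraph (Fin (q * q * W)) where
  Adj x y := gridAdj q W A x y
  symm := ⟨fun _ _ h => gridAdj_symm h⟩
  loopless := ⟨fun _ h => gridAdj_irrefl h⟩

/-- Twice the number of edges inside `S` is the number of ordered adjacent pairs. -/
lemma two_edgesIn {V : Type} [Fintype V] (G : SimpleGraph V) (S : Finset V) :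
    2 * edgesIn G S = Set.ncard {p : V × V | p.1 ∈ S ∧ p.2 ∈ S ∧ G.Adj p.1 p.2} := by
  classical
  let H : SimpleGraph V :=
    { Adj := fun x y => x ∈ S ∧ y ∈ S ∧ G.Adj x y
      symm := ⟨fun x y h => ⟨h.2.1, h.1, h.2.2.symm⟩⟩
      loopless := ⟨fun x h => G.loopless.irrefl x h.2.2⟩ }
  have h1 : edgesIn G S = H.edgeFinset.card := by
    rw [edgesIn, ← Set.ncard_coe_finset]
    congr 1
    ext e
    induction e using Sym2.ind with
    | _ x y =>
      simp [H]
      tauto
  have h2 : Set.ncard {p : V × V | p.1 ∈ S ∧ p.2 ∈ S ∧ G.Adj p.1 p.2} = ∑ v, H.degree v := by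
    have e1 : {p : V × V | p.1 ∈ S ∧ p.2 ∈ S ∧ G.Adj p.1 p.2} =
        ((Finset.univ : Finset (V × V)).filter (fun p => H.Adj p.1 p.2) : Set (V × V)) := by
      ext p
      simp [H]
    rw [e1, Set.ncard_coe_finset, Finset.card_filter, Fintype.sum_prod_type]
    apply Finset.sum_congr rfl
    intro v _
    rw [← Finset.card_filter, ← SimpleGraph.card_neighborFinset_eq_degree]
    congr 1
    ext w
    simp
  rw [h1, h2, H.sum_degrees_eq_twice_card_edges]

/-- Image of a set of vertices in the natural numbers. -/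
def toNat {N : ℕ} (S : Finset (Fin N)) : Finset ℕ := S.map Fin.valEmbedding

lemma card_toNat {N : ℕ} (S : Finset (Fin N)) : (toNat S).card = S.card := by
  simp [toNat]

lemma toNat_div {q W : ℕ} (S : Finset (Fin (q * q * W))) : ∀ x ∈ toNat S, x / W < q * q := by
  intro x hx
  simp only [toNat, Finset.mem_map, Fin.valEmbedding_apply] at hx
  obtain ⟨a, _, rfl⟩ := hx
  exact Nat.div_lt_of_lt_mul (by rw [mul_comm W]; exact a.isLt)

/-- Edges and non-edges. -/
lemma edges_add_NA {q W : ℕ} (A : ℕ → ℕ → ℕ → Prop) (S : Finset (Fin (q * q * W))) :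
    2 * edgesIn (gridGraph q W A) S + (NA q W A (toNat S)).card = S.card * (S.card - 1) := by
  classical
  rw [two_edgesIn]
  set P : Finset (Fin (q * q * W) × Fin (q * q * W)) :=
    (S ×ˢ S).filter (fun p => (gridGraph q W A).Adj p.1 p.2) with hP
  set Q : Finset (Fin (q * q * W) × Fin (q * q * W)) :=
    (S ×ˢ S).filter (fun p => p.1 ≠ p.2 ∧ ¬ (gridGraph q W A).Adj p.1 p.2) with hQ
  have h1 : Set.ncard {p : Fin (q * q * W) × Fin (q * q * W) |
      p.1 ∈ S ∧ p.2 ∈ S ∧ (gridGraph q W A).Adj p.1 p.2} = P.card := by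
    rw [← Set.ncard_coe_finset]
    congr 1
    ext p
    simp [hP, and_assoc]
  have h2 : (NA q W A (toNat S)).card = Q.card := by
    have : NA q W A (toNat S) = Q.map ⟨fun p => (p.1.val, p.2.val), by
        rintro ⟨a, b⟩ ⟨c, d⟩ h
        simp only [Prod.mk.injEq] at h
        ext
        · exact h.1
        · exact h.2⟩ := by
      ext ⟨x, y⟩
      simp only [mem_NA, toNat, Finset.mem_map, Fin.valEmbedding_apply, hQ, Finset.mem_filter,
        Finset.mem_product, Function.Embedding.coeFn_mk, Prod.exists, Prod.mk.injEq]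
      constructor
      · rintro ⟨⟨a, ha, rfl⟩, ⟨b, hb, rfl⟩, h3, h4⟩
        refine ⟨a, b, ⟨⟨ha, hb⟩, ?_, h4⟩, rfl, rfl⟩
        intro h; apply h3; rw [h]
      · rintro ⟨a, b, ⟨⟨ha, hb⟩, h3, h4⟩, rfl, rfl⟩
        refine ⟨⟨a, ha, rfl⟩, ⟨b, hb, rfl⟩, ?_, h4⟩
        intro h; apply h3; exact Fin.ext h
    rw [this, Finset.card_map]
  have hdisj : Disjoint P Q := by
    rw [Finset.disjoint_left]
    intro p hp hq
    rw [hP, Finset.mem_filter] at hp
    rw [hQ, Finset.mem_filter] at hq
    exact hq.2.2 hp.2
  have hunion : P ∪ Q = S.offDiag := by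
    ext p
    rw [Finset.mem_union, hP, hQ, Finset.mem_filter, Finset.mem_filter, Finset.mem_product,
      Finset.mem_offDiag]
    constructor
    · rintro (⟨⟨h1, h2⟩, h3⟩ | ⟨⟨h1, h2⟩, h3, _⟩)
      · exact ⟨h1, h2, (gridGraph q W A).ne_of_adj h3⟩
      · exact ⟨h1, h2, h3⟩
    · rintro ⟨h1, h2, h3⟩
      by_cases h4 : (gridGraph q W A).Adj p.1 p.2
      · exact Or.inl ⟨⟨h1, h2⟩, h4⟩
      · exact Or.inr ⟨⟨h1, h2⟩, h3, h4⟩
  rw [h1, h2, ← Finset.card_union_of_disjoint hdisj, hunion, Finset.offDiag_card, Nat.mul_sub_one]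

lemma edgesIn_mono {V : Type} [Finite V] (G : SimpleGraph V) {S T : Finset V} (h : S ⊆ T) :
    edgesIn G S ≤ edgesIn G T := by
  apply Set.ncard_le_ncard
  · rintro e ⟨h1, h2⟩
    exact ⟨h1, fun v hv => h (h2 v hv)⟩
  · exact Set.toFinite _

/-- The threshold number of edges. -/
def threshold (q W B R : ℕ) : ℕ :=
  q * R * (q * R - 1) / 2 + W * (q * R) - (q * R ^ 2 + q * q * (B * (W - B)))

lemma two_threshold {q W B R : ℕ} {A : ℕ → ℕ → ℕ → Prop} (hA : GoodSets q W B A)
    (hR : q * q * W < q * R + B) (hRW : q * R ≤ q * q * W) :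
    2 * (threshold q W B R : ℤ) = (q * R : ℕ) * ((q * R : ℕ) - 1) - twoN q W B R := by
  classical
  have hWB : B ≤ W := hA.ge 0 0 W (hA.memW 0 0)
  obtain ⟨S, hS, hScard⟩ : ∃ S : Finset (Fin (q * q * W)), S ⊆ Finset.univ ∧ S.card = q * R :=
    Finset.exists_subset_card_eq (by simpa using hRW)
  have h1 := edges_add_NA A S
  have h2 := (grid_lower q W B R A hA (toNat S) (toNat_div S)
    (by rw [card_toNat, hScard]) hR).1
  rw [hScard] at h1
  set K := q * R with hK
  have heven : 2 * (K * (K - 1) / 2) = K * (K - 1) :=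
    Nat.mul_div_cancel' (Nat.even_mul_pred_self K).two_dvd
  have hKK : ((K * (K - 1) : ℕ) : ℤ) = (K : ℤ) * ((K : ℤ) - 1) := by
    rcases Nat.eq_zero_or_pos K with h | h
    · rw [h]; simp
    · push_cast [h]; ring
  have hsub : ((W - B : ℕ) : ℤ) = (W : ℤ) - B := by push_cast [hWB]; ring
  have hle : twoN q W B R ≤ (K * (K - 1) : ℕ) := by
    have h3 : (NA q W A (toNat S)).card ≤ K * (K - 1) := by omega
    have h4 : ((NA q W A (toNat S)).card : ℤ) ≤ (K * (K - 1) : ℕ) := by exact_mod_cast h3
    linarith
  have hle2 : q * R ^ 2 + q * q * (B * (W - B)) ≤ K * (K - 1) / 2 + W * K := by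
    have : (2 : ℤ) * ((q * R ^ 2 + q * q * (B * (W - B)) : ℕ) : ℤ) ≤
        2 * ((K * (K - 1) / 2 + W * K : ℕ) : ℤ) := by
      have e1 : (2 : ℤ) * ((K * (K - 1) / 2 + W * K : ℕ) : ℤ) =
          ((2 * (K * (K - 1) / 2) : ℕ) : ℤ) + 2 * (W * K) := by push_cast; ring
      rw [e1, heven]
      rw [twoN] at hle
      have e2 : (K : ℤ) = q * R := by rw [hK]; push_cast; ring
      push_cast [hsub]
      push_cast at hle
      rw [e2]
      rw [e2] at hle
      linarith
    have h5 : ((q * R ^ 2 + q * q * (B * (W - B)) : ℕ) : ℤ) ≤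
        ((K * (K - 1) / 2 + W * K : ℕ) : ℤ) := by linarith
    exact_mod_cast h5
  have e3 : (2 : ℤ) * (threshold q W B R : ℤ) =
      ((2 * (K * (K - 1) / 2) : ℕ) : ℤ) + 2 * (W * K) -
        2 * ((q * R ^ 2 + q * q * (B * (W - B)) : ℕ) : ℤ) := by
    rw [threshold, ← hK, Nat.cast_sub hle2]
    push_cast
    ring
  rw [e3, heven, hKK, twoN]
  have e2 : (K : ℤ) = q * R := by rw [hK]; push_cast; ring
  push_cast [hsub]
  rw [e2]
  ring

/-- **Main equivalence for the grid graph.** -/
theorem grid_main {q W B R : ℕ} {A : ℕ → ℕ → ℕ → Prop} (hA : GoodSets q W B A)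
    (hR : q * q * W < q * R + B) (hRW : q * R ≤ q * q * W) :
    (∃ S : Finset (Fin (q * q * W)), S.card ≤ q * R ∧
      threshold q W B R ≤ edgesIn (gridGraph q W A) S) ↔
    ∃ s : ℕ → ℕ → ℕ, (∀ i < q, ∀ j < q, A i j (s i j)) ∧
      (∀ i < q, ∑ j ∈ range q, s i j = R) ∧ (∀ j < q, ∑ i ∈ range q, s i j = R) := by
  classical
  have hth := two_threshold hA hR hRW
  constructor
  · rintro ⟨S, hS, hM⟩
    obtain ⟨T, hST, hT⟩ : ∃ T : Finset (Fin (q * q * W)), S ⊆ T ∧ T.card = q * R :=
      Finset.exists_superset_card_eq hS (by simpa using hRW)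
    have hM' : threshold q W B R ≤ edgesIn (gridGraph q W A) T :=
      hM.trans (edgesIn_mono _ hST)
    have h1 := edges_add_NA A T
    obtain ⟨h2, h3⟩ := grid_lower q W B R A hA (toNat T) (toNat_div T)
      (by rw [card_toNat, hT]) hR
    have h4 : twoN q W B R = (NA q W A (toNat T)).card := by
      apply le_antisymm h2
      rw [hT] at h1
      have hKK : ((q * R * (q * R - 1) : ℕ) : ℤ) = ((q * R : ℕ) : ℤ) * (((q * R : ℕ) : ℤ) - 1) := by
        rcases Nat.eq_zero_or_pos (q * R) with h | h
        · rw [h]; simp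
        · push_cast [h]; ring
      have h5 : ((2 * edgesIn (gridGraph q W A) T + (NA q W A (toNat T)).card : ℕ) : ℤ) =
          ((q * R : ℕ) : ℤ) * (((q * R : ℕ) : ℤ) - 1) := by rw [h1, hKK]
      have h6 : (threshold q W B R : ℤ) ≤ (edgesIn (gridGraph q W A) T : ℤ) := by
        exact_mod_cast hM'
      push_cast at h5 hth ⊢
      linarith
    obtain ⟨a, b, c⟩ := h3 h4
    exact ⟨cnt q W (toNat T), a, b, c⟩
  · rintro ⟨s, h1, h2, h3⟩
    obtain ⟨h4, h5⟩ := grid_upper q W B R A hA s h1 h2 h3
    have hmem : ∀ x ∈ fillSet q W s, x < q * q * W := by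
      intro x hx
      rw [fillSet, Finset.mem_filter, Finset.mem_range] at hx
      exact hx.1
    refine ⟨(fillSet q W s).attachFin hmem, ?_, ?_⟩
    · rw [Finset.card_attachFin, h4]
    · have h6 : toNat ((fillSet q W s).attachFin hmem) = fillSet q W s := by
        ext x
        simp only [toNat, Finset.mem_map, Finset.mem_attachFin, Fin.valEmbedding_apply]
        constructor
        · rintro ⟨a, ha, rfl⟩; exact ha
        · intro hx; exact ⟨⟨x, hmem x hx⟩, hx, rfl⟩
      have h7 := edges_add_NA A ((fillSet q W s).attachFin hmem)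
      rw [h6, Finset.card_attachFin, h4] at h7
      have hKK : ((q * R * (q * R - 1) : ℕ) : ℤ) = ((q * R : ℕ) : ℤ) * (((q * R : ℕ) : ℤ) - 1) := by
        rcases Nat.eq_zero_or_pos (q * R) with h | h
        · rw [h]; simp
        · push_cast [h]; ring
      have h8 : ((2 * edgesIn (gridGraph q W A) ((fillSet q W s).attachFin hmem) +
          (NA q W A (fillSet q W s)).card : ℕ) : ℤ) =
          ((q * R : ℕ) : ℤ) * (((q * R : ℕ) : ℤ) - 1) := by rw [h7, hKK]
      have h9 : (threshold q W B R : ℤ) ≤
          (edgesIn (gridGraph q W A) ((fillSet q W s).attachFin hmem) : ℤ) := by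
        push_cast at h8 hth h5
        linarith
      exact_mod_cast h9

/-! ### Modular-width -/

/-- A nonempty finite clique has width `0`. -/
lemma HasWidth.clique {V : Type} (G : SimpleGraph V) (w : ℕ) (U : Finset V) (hU : U.Nonempty)
    (h : ∀ u ∈ U, ∀ v ∈ U, u ≠ v → G.Adj u v) : HasWidth G w (U : Set V) := by
  classical
  induction hU using Finset.Nonempty.cons_induction with
  | singleton a =>
    rw [Finset.coe_singleton]
    exact HasWidth.single a
  | cons a s ha hs ih =>
    rw [Finset.coe_cons, ← Set.singleton_union]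
    apply HasWidth.join
    · rw [Set.disjoint_singleton_left]
      exact_mod_cast ha
    · intro u hu v hv
      rw [Set.mem_singleton_iff] at hu
      subst hu
      have hv' : v ∈ s := by exact_mod_cast hv
      apply h
      · exact Finset.mem_cons_self _ _
      · exact Finset.mem_cons_of_mem hv'
      · rintro rfl; exact ha hv'
    · exact HasWidth.single a
    · apply ih
      intro u hu v hv huv
      exact h u (Finset.mem_cons_of_mem hu) v (Finset.mem_cons_of_mem hv) huv

lemma HasWidth.cliqueSet {V : Type} [Finite V] (G : SimpleGraph V) (w : ℕ) (U : Set V)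
    (hU : U.Nonempty) (h : ∀ u ∈ U, ∀ v ∈ U, u ≠ v → G.Adj u v) : HasWidth G w U := by
  classical
  have := Fintype.ofFinite V
  have h1 : U = (U.toFinset : Set V) := by simp
  rw [h1]
  apply HasWidth.clique
  · rwa [Set.toFinset_nonempty]
  · intro u hu v hv
    rw [Set.mem_toFinset] at hu hv
    exact h u hu v hv

/-- The part `[lo, a)` of cell `c`. -/
def part (q W c lo a : ℕ) : Set (Fin (q * q * W)) :=
  {x | (x : ℕ) / W = c ∧ lo ≤ (x : ℕ) % W ∧ (x : ℕ) % W < a}

lemma part_nonempty {q W c lo a : ℕ} (hc : c < q * q) (h : lo < a) (ha : a ≤ W) :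
    (part q W c lo a).Nonempty := by
  have hW : 0 < W := by omega
  have hlo : lo < W := by omega
  have hlt : c * W + lo < q * q * W := by
    calc c * W + lo < c * W + W := by omega
      _ = (c + 1) * W := by ring
      _ ≤ q * q * W := Nat.mul_le_mul_right _ hc
  refine ⟨⟨c * W + lo, hlt⟩, ?_⟩
  have e1 : (c * W + lo) % W = lo := by
    rw [Nat.add_comm, Nat.add_mul_mod_self_right, Nat.mod_eq_of_lt hlo]
  have e2 : (c * W + lo) / W = c := by
    rw [Nat.add_comm, Nat.add_mul_div_right _ _ hW, Nat.div_eq_of_lt hlo, zero_add]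
  simp only [part, Set.mem_ofPred_eq]
  rw [e1, e2]
  exact ⟨rfl, le_rfl, h⟩

lemma adj_same_cell {q W : ℕ} {A : ℕ → ℕ → ℕ → Prop} {x y : Fin (q * q * W)}
    (h : (x : ℕ) / W = (y : ℕ) / W) (hlt : (x : ℕ) % W < (y : ℕ) % W) :
    (gridGraph q W A).Adj x y ↔
      gad (A ((x : ℕ) / W / q) ((x : ℕ) / W % q)) W ((x : ℕ) % W) ((y : ℕ) % W) := by
  show gridAdj q W A x y ↔ _
  constructor
  · rintro (⟨_, h1 | h1⟩ | h1)
    · exact h1.2
    · omega
    · rw [h] at h1; exact absurd rfl h1.1
  · intro h1
    exact Or.inl ⟨h, Or.inl ⟨hlt, h1⟩⟩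

/-- Each initial part of a gadget is a cograph. -/
lemma part_width {q W B : ℕ} {A : ℕ → ℕ → ℕ → Prop} (hA : GoodSets q W B A) (w : ℕ) {c : ℕ}
    (hc : c < q * q) (a : ℕ) (ha : A (c / q) (c % q) a) :
    ∀ lo, lo ≤ W - a → HasWidth (gridGraph q W A) w (part q W c lo a) := by
  classical
  have hBW := hA.hBW
  induction a using Nat.strong_induction_on with
  | _ a ih =>
    intro lo hlo
    have haB := hA.ge _ _ a ha
    have haW := hA.le _ _ a ha
    rcases haB.eq_or_lt with h | h
    · -- the base clique
      subst h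
      apply HasWidth.cliqueSet
      · exact part_nonempty hc (by omega) haW
      · intro x hx y hy hxy
        simp only [part, Set.mem_ofPred_eq] at hx hy
        have hne : (x : ℕ) % W ≠ (y : ℕ) % W := by
          intro he
          apply hxy
          apply Fin.ext
          rw [← Nat.div_add_mod (x : ℕ) W, ← Nat.div_add_mod (y : ℕ) W, hx.1, hy.1, he]
        rcases Nat.lt_or_gt_of_ne hne with hlt | hgt
        · rw [adj_same_cell (by rw [hx.1, hy.1]) hlt, hx.1]
          left
          intro a' ha' _
          have := hA.ge _ _ a' ha'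
          omega
        · apply SimpleGraph.Adj.symm
          rw [adj_same_cell (by rw [hx.1, hy.1]) hgt, hy.1]
          left
          intro a' ha' _
          have := hA.ge _ _ a' ha'
          omega
    · set P : ℕ → Prop := fun c' => A (c / q) (c % q) c' with hP
      set a' := Nat.findGreatest P (a - 1) with ha'
      have hBa : B ≤ a - 1 := by omega
      have hAa' : P a' := Nat.findGreatest_spec (P := P) hBa (hA.memB _ _)
      have hle : a' ≤ a - 1 := Nat.findGreatest_le _
      have hlt : a' < a := by omega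
      have hno : ∀ d, P d → a' < d → a ≤ d := by
        intro d hd hd'
        by_contra hcon
        exact Nat.findGreatest_is_greatest hd' (by omega) hd
      have haB' := hA.ge _ _ a' hAa'
      -- the three parts
      have hmid := ih a' hlt hAa' (W - a) (by omega)
      have htop : HasWidth (gridGraph q W A) w (part q W c a' a) := by
        apply HasWidth.cliqueSet
        · exact part_nonempty hc hlt haW
        · intro x hx y hy hxy
          simp only [part, Set.mem_ofPred_eq] at hx hy
          have hne : (x : ℕ) % W ≠ (y : ℕ) % W := by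
            intro he
            apply hxy
            apply Fin.ext
            rw [← Nat.div_add_mod (x : ℕ) W, ← Nat.div_add_mod (y : ℕ) W, hx.1, hy.1, he]
          rcases Nat.lt_or_gt_of_ne hne with hlt' | hgt'
          · rw [adj_same_cell (by rw [hx.1, hy.1]) hlt', hx.1]
            left
            intro d hd hd'
            have := hno d hd (by omega)
            omega
          · apply SimpleGraph.Adj.symm
            rw [adj_same_cell (by rw [hx.1, hy.1]) hgt', hy.1]
            left
            intro d hd hd'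
            have := hno d hd (by omega)
            omega
      have hun : HasWidth (gridGraph q W A) w (part q W c (W - a) a' ∪ part q W c a' a) := by
        apply HasWidth.union
        · rw [Set.disjoint_left]
          intro x hx hx'
          simp only [part, Set.mem_ofPred_eq] at hx hx'
          omega
        · intro x hx y hy
          simp only [part, Set.mem_ofPred_eq] at hx hy
          rw [adj_same_cell (by rw [hx.1, hy.1]) (by omega), hx.1]
          rintro (h1 | ⟨d, hd, hd1, hd2⟩)
          · have := h1 a' hAa' (by omega)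
            omega
          · have := hno d hd (by omega)
            omega
        · exact hmid
        · exact htop
      rcases hlo.eq_or_lt with h1 | h1
      · have : part q W c lo a = part q W c (W - a) a' ∪ part q W c a' a := by
          ext x
          simp only [part, Set.mem_union, Set.mem_ofPred_eq]
          omega
        rw [this]; exact hun
      · have : part q W c lo a =
            part q W c lo (W - a) ∪ (part q W c (W - a) a' ∪ part q W c a' a) := by
          ext x
          simp only [part, Set.mem_union, Set.mem_ofPred_eq]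
          omega
        rw [this]
        apply HasWidth.join
        · rw [Set.disjoint_left]
          intro x hx hx'
          simp only [part, Set.mem_union, Set.mem_ofPred_eq] at hx hx'
          omega
        · intro x hx y hy
          simp only [part, Set.mem_union, Set.mem_ofPred_eq] at hx hy
          have hyc : (y : ℕ) / W = c := by rcases hy with hy | hy <;> exact hy.1
          rw [adj_same_cell (by rw [hx.1, hyc]) (by omega), hx.1]
          right
          exact ⟨a, ha, by omega, by omega⟩
        · apply HasWidth.cliqueSet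
          · exact part_nonempty hc h1 (by omega)
          · intro x hx y hy hxy
            simp only [part, Set.mem_ofPred_eq] at hx hy
            have hne : (x : ℕ) % W ≠ (y : ℕ) % W := by
              intro he
              apply hxy
              apply Fin.ext
              rw [← Nat.div_add_mod (x : ℕ) W, ← Nat.div_add_mod (y : ℕ) W, hx.1, hy.1, he]
            rcases Nat.lt_or_gt_of_ne hne with hlt' | hgt'
            · rw [adj_same_cell (by rw [hx.1, hy.1]) hlt', hx.1]
              left
              intro d hd _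
              have := hA.ge _ _ d hd
              omega
            · apply SimpleGraph.Adj.symm
              rw [adj_same_cell (by rw [hx.1, hy.1]) hgt', hy.1]
              left
              intro d hd _
              have := hA.ge _ _ d hd
              omega
        · exact hun

/-- The grid graph has a construction of width at most `q * q`. -/
theorem grid_width {q W B : ℕ} {A : ℕ → ℕ → ℕ → Prop} (hA : GoodSets q W B A) :
    HasWidth (gridGraph q W A) (q * q) Set.univ := by
  classical
  have hWB : B ≤ W := hA.ge 0 0 W (hA.memW 0 0)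
  have hW : 0 < W := by have := hA.hBW; omega
  let H : SimpleGraph (Fin (q * q)) :=
    { Adj := fun c c' => (c : ℕ) / q ≠ (c' : ℕ) / q ∧ (c : ℕ) % q ≠ (c' : ℕ) % q
      symm := ⟨fun _ _ h => ⟨h.1.symm, h.2.symm⟩⟩
      loopless := ⟨fun _ h => h.1 rfl⟩ }
  have hU : (Set.univ : Set (Fin (q * q * W))) = ⋃ c : Fin (q * q), part q W c 0 W := by
    ext x
    simp only [Set.mem_univ, Set.mem_iUnion, part, Set.mem_ofPred_eq, true_iff]
    refine ⟨⟨(x : ℕ) / W, Nat.div_lt_of_lt_mul (by rw [mul_comm W]; exact x.isLt)⟩, rfl,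
      Nat.zero_le _, Nat.mod_lt _ hW⟩
  rw [hU]
  apply HasWidth.subst (q * q) le_rfl H
  · intro c c' hcc
    rw [Set.disjoint_left]
    intro x hx hx'
    simp only [part, Set.mem_ofPred_eq] at hx hx'
    apply hcc
    apply Fin.ext
    rw [← hx.1, ← hx'.1]
  · intro c c' hcc x hx y hy
    simp only [part, Set.mem_ofPred_eq] at hx hy
    show gridAdj q W A x y ↔ ((c : ℕ) / q ≠ (c' : ℕ) / q ∧ (c : ℕ) % q ≠ (c' : ℕ) % q)
    rw [← hx.1, ← hy.1]
    constructor
    · rintro (⟨h1, _⟩ | h1)
      · exfalso
        apply hcc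
        apply Fin.ext
        rw [← hx.1, ← hy.1, h1]
      · exact h1
    · intro h1
      exact Or.inr h1
  · intro c
    exact part_width hA (q * q) c.isLt W (hA.memW _ _) 0 (Nat.zero_le _)

end Pool.Agent.H7.DkS
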