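import Mathlib
import Pool.Agent.H7.DkS.Graph

/-!
# Encoding k-Clique by prescribed row and column sums
-/

namespace Pool.Agent.H7.DkS

open Finset

section params

variable (n k : ℕ)

/-- first digit base -/
def N1 : ℕ := k * n + 1
/-- code of a vertex -/
def gcode (u : ℕ) : ℕ := u + N1 n k * u ^ 2
/-- second digit base -/
def N2 : ℕ := k * (n + N1 n k * n ^ 2) + 1
/-- range of the codes -/
def YY : ℕ := N2 n k ^ 2
/-- `W - B` -/
def XX : ℕ := (k + 1) * (k + 1) * YY n k + 1
/-- least element of all the sets -/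
def BB : ℕ := (k + 1) * (k + 1) * XX n k + 1
/-- greatest element of all the sets -/
def WW : ℕ := BB n k + XX n k
/-- offset -/
def B2 : ℕ := BB n k + k * YY n k
/-- the common row and column sum -/
def RR : ℕ := (k + 1) * B2 n k + YY n k

end params

/-- The real (non-dummy) elements of the sets. -/
def realElt (n k : ℕ) (E : ℕ → ℕ → Prop) (i j a : ℕ) : Prop :=
  (0 < i ∧ 0 < j ∧ ∃ u, u < n ∧ ∃ w, w < n ∧ ((i = j ∧ u = w) ∨ (i ≠ j ∧ E u w)) ∧
    a = B2 n k + (gcode n k u + N2 n k * gcode n k w)) ∨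
  (0 < i ∧ j = 0 ∧ ∃ u, u < n ∧ ∃ z, z < N2 n k ∧
    a + (k * gcode n k u + N2 n k * z) = B2 n k + YY n k) ∨
  (i = 0 ∧ 0 < j ∧ ∃ w, w < n ∧ ∃ z, z < N2 n k ∧
    a + (z + N2 n k * (k * gcode n k w)) = B2 n k + YY n k)

/-- The sets of allowed cell sizes. -/
def cellSet (n k : ℕ) (E : ℕ → ℕ → Prop) (i j a : ℕ) : Prop :=
  BB n k ≤ a ∧ a ≤ WW n k ∧
    ((i = 0 ∧ j = 0) ∨ a = BB n k ∨ a = WW n k ∨ realElt n k E i j a)

section facts

variable {n k : ℕ}

lemma YY_pos : 0 < YY n k := by
  unfold YY N2
  positivity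

lemma k_gcode_lt {u : ℕ} (hu : u < n) : k * gcode n k u < N2 n k := by
  unfold N2 gcode
  have h1 : u ^ 2 ≤ n ^ 2 := Nat.pow_le_pow_left hu.le 2
  have h2 : u + N1 n k * u ^ 2 ≤ n + N1 n k * n ^ 2 :=
    Nat.add_le_add hu.le (Nat.mul_le_mul_left _ h1)
  have h3 := Nat.mul_le_mul_left k h2
  omega

lemma gcode_le {u : ℕ} (hu : u < n) : gcode n k u ≤ n + N1 n k * n ^ 2 := by
  unfold gcode
  have h1 : u ^ 2 ≤ n ^ 2 := Nat.pow_le_pow_left hu.le 2
  exact Nat.add_le_add hu.le (Nat.mul_le_mul_left _ h1)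

lemma sum_gcode_lt (f : ℕ → ℕ) (hf : ∀ i < k, f i < n) :
    ∑ i ∈ range k, gcode n k (f i) < N2 n k := by
  have h1 : ∑ i ∈ range k, gcode n k (f i) ≤ ∑ i ∈ range k, (n + N1 n k * n ^ 2) := by
    apply Finset.sum_le_sum
    intro i hi
    exact gcode_le (hf i (Finset.mem_range.mp hi))
  rw [Finset.sum_const, Finset.card_range, smul_eq_mul] at h1
  unfold N2
  omega

/-- Digits are unique. -/
lemma digits_unique {N a b c d : ℕ} (ha : a < N) (hc : c < N) (h : a + N * b = c + N * d) :
    a = c ∧ b = d := by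
  have h1 : (a + N * b) % N = (c + N * d) % N := by rw [h]
  rw [Nat.add_mul_mod_self_left, Nat.add_mul_mod_self_left, Nat.mod_eq_of_lt ha,
    Nat.mod_eq_of_lt hc] at h1
  subst h1
  refine ⟨rfl, ?_⟩
  have hN : 0 < N := by omega
  have h2 : N * b = N * d := by omega
  exact Nat.eq_of_mul_eq_mul_left hN h2

/-- The parabola trick. -/
lemma all_eq (f : ℕ → ℕ) (u : ℕ) (hf : ∀ i < k, f i < n) (hu : u < n)
    (h : ∑ i ∈ range k, gcode n k (f i) = k * gcode n k u) : ∀ i < k, f i = u := by
  have h1 : ∑ i ∈ range k, gcode n k (f i) =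
      ∑ i ∈ range k, f i + N1 n k * ∑ i ∈ range k, f i ^ 2 := by
    simp only [gcode]
    rw [Finset.sum_add_distrib, Finset.mul_sum]
  have h2 : k * gcode n k u = k * u + N1 n k * (k * u ^ 2) := by
    simp only [gcode]; ring
  rw [h1, h2] at h
  have h3 : ∑ i ∈ range k, f i < N1 n k := by
    have : ∑ i ∈ range k, f i ≤ ∑ i ∈ range k, n :=
      Finset.sum_le_sum (fun i hi => (hf i (Finset.mem_range.mp hi)).le)
    rw [Finset.sum_const, Finset.card_range, smul_eq_mul] at this
    unfold N1
    omega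
  have h4 : k * u < N1 n k := by
    unfold N1
    have := Nat.mul_le_mul_left k hu.le
    omega
  obtain ⟨e1, e2⟩ := digits_unique h3 h4 h
  have e1' : ∑ i ∈ range k, (f i : ℤ) = k * u := by exact_mod_cast e1
  have e2' : ∑ i ∈ range k, (f i : ℤ) ^ 2 = k * (u : ℤ) ^ 2 := by exact_mod_cast e2
  obtain ⟨_, h5⟩ := sum_sq_ge k (fun i => (f i : ℤ)) u e1'
  intro i hi
  have := h5 e2'.symm i (Finset.mem_range.mpr hi)
  exact_mod_cast this

end facts

/-- The sets satisfy the hypotheses needed for the grid graph. -/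
lemma cellSet_good (n k : ℕ) (E : ℕ → ℕ → Prop) :
    GoodSets (k + 1) (WW n k) (BB n k) (cellSet n k E) where
  memB i j := by
    refine ⟨le_rfl, ?_, Or.inr (Or.inl rfl)⟩
    unfold WW; omega
  memW i j := by
    refine ⟨?_, le_rfl, Or.inr (Or.inr (Or.inl rfl))⟩
    unfold WW; omega
  ge i j a h := h.1
  le i j a h := h.2.1
  hBW := by
    have : XX n k ≤ (k + 1) * (k + 1) * XX n k := Nat.le_mul_of_pos_left _ (by positivity)
    unfold WW
    have : XX n k < BB n k := by unfold BB; omega
    omega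

lemma params_ineq1 (n k : ℕ) :
    (k + 1) * (k + 1) * WW n k < (k + 1) * RR n k + BB n k := by
  have h1 : BB n k = (k + 1) * (k + 1) * XX n k + 1 := rfl
  have h2 : (k + 1) * (k + 1) * WW n k =
      (k + 1) * (k + 1) * BB n k + (k + 1) * (k + 1) * XX n k := by unfold WW; ring
  have h3 : (k + 1) * RR n k = (k + 1) * (k + 1) * BB n k +
      (k + 1) * ((k + 1) * (k * YY n k) + YY n k) := by unfold RR B2; ring
  rw [h2, h3]
  nth_rewrite 3 [h1]
  omega

lemma params_ineq2 (n k : ℕ) :
    (k + 1) * RR n k ≤ (k + 1) * (k + 1) * WW n k := by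
  rw [mul_assoc]
  apply Nat.mul_le_mul_left
  unfold RR WW B2 XX
  nlinarith [YY_pos (n := n) (k := k), Nat.zero_le k, Nat.zero_le (YY n k),
    mul_nonneg (Nat.zero_le k) (Nat.zero_le (YY n k)),
    mul_nonneg (Nat.zero_le (k * k)) (Nat.zero_le (YY n k)),
    mul_nonneg (Nat.zero_le (k * k * k)) (Nat.zero_le (YY n k))]

/-- From prescribed sums to a clique. -/
lemma clique_of_sums {n k : ℕ} {E : ℕ → ℕ → Prop} (s : ℕ → ℕ → ℕ)
    (hs : ∀ i < k + 1, ∀ j < k + 1, cellSet n k E i j (s i j))
    (hrow : ∀ i < k + 1, ∑ j ∈ range (k + 1), s i j = RR n k)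
    (hcol : ∀ j < k + 1, ∑ i ∈ range (k + 1), s i j = RR n k) :
    ∃ c : ℕ → ℕ, (∀ i < k, c i < n) ∧ ∀ i < k, ∀ j < k, i ≠ j → E (c i) (c j) := by
  classical
  have hY := YY_pos (n := n) (k := k)
  -- a general statement about a line (row or column) all of whose cells are not the corner
  have line : ∀ t : ℕ → ℕ, (∀ j < k + 1, BB n k ≤ t j) →
      (∀ j < k + 1, t j = BB n k ∨ t j = WW n k ∨ t j ≤ B2 n k + YY n k) →
      ∑ j ∈ range (k + 1), t j = RR n k → ∀ j < k + 1, t j ≠ BB n k ∧ t j ≠ WW n k := by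
    intro t ht1 ht2 hsum
    have hnoW : ∀ j < k + 1, t j ≠ WW n k := by
      intro j hj hjW
      have h1 : ∑ j' ∈ range (k + 1), t j' = t j + ∑ j' ∈ (range (k + 1)).erase j, t j' := by
        rw [Finset.add_sum_erase _ _ (Finset.mem_range.mpr hj)]
      have h2 : ∑ j' ∈ (range (k + 1)).erase j, t j' ≥
          ∑ j' ∈ (range (k + 1)).erase j, BB n k := by
        apply Finset.sum_le_sum
        intro j' hj'
        exact ht1 j' (Finset.mem_range.mp (Finset.mem_of_mem_erase hj'))
      rw [Finset.sum_const, Finset.card_erase_of_mem (Finset.mem_range.mpr hj),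
        Finset.card_range, smul_eq_mul, Nat.add_sub_cancel] at h2
      rw [h1, hjW] at hsum
      have h3 : RR n k < WW n k + k * BB n k := by
        have e1 : RR n k = (k + 1) * BB n k + ((k + 1) * (k * YY n k) + YY n k) := by
          unfold RR B2; ring
        have e2 : WW n k + k * BB n k = (k + 1) * BB n k + XX n k := by unfold WW; ring
        have e3 : XX n k = (k + 1) * (k * YY n k) + YY n k + k * YY n k + 1 := by
          unfold XX; ring
        rw [e1, e2, e3]
        omega
      omega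
    have hnoB : ∀ j < k + 1, t j ≠ BB n k := by
      intro j hj hjB
      have h1 : ∑ j' ∈ range (k + 1), t j' = t j + ∑ j' ∈ (range (k + 1)).erase j, t j' := by
        rw [Finset.add_sum_erase _ _ (Finset.mem_range.mpr hj)]
      have h2 : ∑ j' ∈ (range (k + 1)).erase j, t j' ≤
          ∑ j' ∈ (range (k + 1)).erase j, (B2 n k + YY n k) := by
        apply Finset.sum_le_sum
        intro j' hj'
        have hj'' := Finset.mem_range.mp (Finset.mem_of_mem_erase hj')
        rcases ht2 j' hj'' with h | h | h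
        · rw [h]; unfold B2; omega
        · exact absurd h (hnoW j' hj'')
        · exact h
      rw [Finset.sum_const, Finset.card_erase_of_mem (Finset.mem_range.mpr hj),
        Finset.card_range, smul_eq_mul, Nat.add_sub_cancel] at h2
      rw [h1, hjB] at hsum
      have h3 : BB n k + k * (B2 n k + YY n k) < RR n k := by
        have e1 : RR n k = k * B2 n k + (BB n k + k * YY n k) + YY n k := by
          have eB : BB n k + k * YY n k = B2 n k := rfl
          rw [eB]; unfold RR; ring
        have e2 : BB n k + k * (B2 n k + YY n k) = k * B2 n k + (BB n k + k * YY n k) := by ring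
        rw [e1, e2]
        omega
      omega
    exact fun j hj => ⟨hnoB j hj, hnoW j hj⟩
  -- all elements of the sets are small unless they are the top
  have small : ∀ i j a, i < k + 1 → j < k + 1 → (0 < i ∨ 0 < j) → cellSet n k E i j a →
      (a = BB n k ∨ a = WW n k ∨ a ≤ B2 n k + YY n k) := by
    rintro i j a hi hj hij ⟨_, _, h | h | h | h⟩
    · omega
    · exact Or.inl h
    · exact Or.inr (Or.inl h)
    · right; right
      rcases h with ⟨h1, h2, u, hu, w, hw, _, h5⟩ | ⟨_, _, u, hu, z, hz, h5⟩ |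
        ⟨_, _, w, hw, z, hz, h5⟩
      · have hk : 1 ≤ k := by omega
        have g1 : gcode n k u < N2 n k :=
          lt_of_le_of_lt (Nat.le_mul_of_pos_left _ hk) (k_gcode_lt hu)
        have g2 : gcode n k w < N2 n k :=
          lt_of_le_of_lt (Nat.le_mul_of_pos_left _ hk) (k_gcode_lt hw)
        have g3 : gcode n k u + N2 n k * gcode n k w ≤ YY n k := by
          unfold YY
          have : N2 n k * (gcode n k w + 1) ≤ N2 n k * N2 n k := Nat.mul_le_mul_left _ g2
          nlinarith
        omega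
      · omega
      · omega
  have hreal : ∀ i j, i < k + 1 → j < k + 1 → (0 < i ∨ 0 < j) → realElt n k E i j (s i j) := by
    intro i j hi hj hij
    have hne : s i j ≠ BB n k ∧ s i j ≠ WW n k := by
      rcases Nat.eq_zero_or_pos i with h0 | h0
      · have hj0 : 0 < j := by omega
        exact line (fun i' => s i' j) (fun i' hi' => (hs i' hi' j hj).1)
          (fun i' hi' => small i' j _ hi' hj (Or.inr hj0) (hs i' hi' j hj)) (hcol j hj) i hi
      · exact line (fun j' => s i j') (fun j' hj' => (hs i hi j' hj').1)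
          (fun j' hj' => small i j' _ hi hj' (Or.inl h0) (hs i hi j' hj')) (hrow i hi) j hj
    obtain ⟨_, _, h | h | h | h⟩ := hs i hi j hj
    · omega
    · exact absurd h hne.1
    · exact absurd h hne.2
    · exact h
  -- extract the codes
  have hinner : ∀ i < k, ∀ j < k, ∃ u, u < n ∧ ∃ w, w < n ∧
      ((i = j ∧ u = w) ∨ (i ≠ j ∧ E u w)) ∧
      s (i + 1) (j + 1) = B2 n k + (gcode n k u + N2 n k * gcode n k w) := by
    intro i hi j hj
    rcases hreal (i + 1) (j + 1) (by omega) (by omega) (by omega) with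
      ⟨_, _, u, hu, w, hw, h3, h4⟩ | ⟨_, h, _⟩ | ⟨h, _⟩
    · refine ⟨u, hu, w, hw, ?_, h4⟩
      rcases h3 with h3 | h3
      · exact Or.inl ⟨by omega, h3.2⟩
      · exact Or.inr ⟨by omega, h3.2⟩
    · omega
    · omega
  choose! u hu w hw hcomp hval using hinner
  have hrow0 : ∀ i < k, ∃ u', u' < n ∧ ∃ z, z < N2 n k ∧
      s (i + 1) 0 + (k * gcode n k u' + N2 n k * z) = B2 n k + YY n k := by
    intro i hi
    rcases hreal (i + 1) 0 (by omega) (by omega) (by omega) with
      ⟨_, h, _⟩ | ⟨_, _, h⟩ | ⟨h, _⟩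
    · omega
    · exact h
    · omega
  choose! u' hu' zr hzr hvr using hrow0
  have hcol0 : ∀ j < k, ∃ w', w' < n ∧ ∃ z, z < N2 n k ∧
      s 0 (j + 1) + (z + N2 n k * (k * gcode n k w')) = B2 n k + YY n k := by
    intro j hj
    rcases hreal 0 (j + 1) (by omega) (by omega) (by omega) with
      ⟨h, _⟩ | ⟨h, _⟩ | ⟨_, _, h⟩
    · omega
    · omega
    · exact h
  choose! w' hw' zc hzc hvc using hcol0
  -- row equations
  have hreq : ∀ i < k, ∀ j < k, u i j = u' i := by
    intro i hi
    have h1 := hrow (i + 1) (by omega)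
    rw [Finset.sum_range_succ'] at h1
    have h2 : ∑ j ∈ range k, s (i + 1) (j + 1) =
        k * B2 n k + (∑ j ∈ range k, gcode n k (u i j) +
          N2 n k * ∑ j ∈ range k, gcode n k (w i j)) := by
      rw [Finset.sum_congr rfl (fun j hj => hval i hi j (Finset.mem_range.mp hj)),
        Finset.sum_add_distrib, Finset.sum_add_distrib, Finset.mul_sum]
      simp
    rw [h2] at h1
    have h3 := hvr i hi
    have h4 : ∑ j ∈ range k, gcode n k (u i j) + N2 n k * ∑ j ∈ range k, gcode n k (w i j) =
        k * gcode n k (u' i) + N2 n k * zr i := by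
      have e : RR n k = k * B2 n k + (B2 n k + YY n k) := by unfold RR; ring
      rw [e] at h1
      omega
    obtain ⟨h5, _⟩ := digits_unique (sum_gcode_lt _ (fun j hj => hu i hi j hj))
      (k_gcode_lt (hu' i hi)) h4
    exact all_eq (fun j => u i j) (u' i) (fun j hj => hu i hi j hj) (hu' i hi) h5
  have hceq : ∀ j < k, ∀ i < k, w i j = w' j := by
    intro j hj
    have h1 := hcol (j + 1) (by omega)
    rw [Finset.sum_range_succ'] at h1
    have h2 : ∑ i ∈ range k, s (i + 1) (j + 1) =
        k * B2 n k + (∑ i ∈ range k, gcode n k (u i j) +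
          N2 n k * ∑ i ∈ range k, gcode n k (w i j)) := by
      rw [Finset.sum_congr rfl (fun i hi => hval i (Finset.mem_range.mp hi) j hj),
        Finset.sum_add_distrib, Finset.sum_add_distrib, Finset.mul_sum]
      simp
    rw [h2] at h1
    have h3 := hvc j hj
    have h4 : ∑ i ∈ range k, gcode n k (u i j) + N2 n k * ∑ i ∈ range k, gcode n k (w i j) =
        zc j + N2 n k * (k * gcode n k (w' j)) := by
      have e : RR n k = k * B2 n k + (B2 n k + YY n k) := by unfold RR; ring
      rw [e] at h1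
      omega
    obtain ⟨_, h5⟩ := digits_unique (sum_gcode_lt _ (fun i hi => hu i hi j hj)) (hzc j hj) h4
    exact all_eq (fun i => w i j) (w' j) (fun i hi => hw i hi j hj) (hw' j hj) h5
  have hdiag : ∀ i < k, u' i = w' i := by
    intro i hi
    rcases hcomp i hi i hi with h | h
    · rw [← hreq i hi i hi, ← hceq i hi i hi]; exact h.2
    · exact absurd rfl h.1
  refine ⟨u', hu', ?_⟩
  intro i hi j hj hij
  rcases hcomp i hi j hj with h | h
  · exact absurd h.1 hij
  · have := h.2
    rw [hreq i hi j hj, hceq j hj i hi, ← hdiag j hj] at this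
    exact this

/-- From a clique to prescribed sums. -/
lemma sums_of_clique {n k : ℕ} {E : ℕ → ℕ → Prop} (c : ℕ → ℕ) (hc : ∀ i < k, c i < n)
    (hE : ∀ i < k, ∀ j < k, i ≠ j → E (c i) (c j)) :
    ∃ s : ℕ → ℕ → ℕ, (∀ i < k + 1, ∀ j < k + 1, cellSet n k E i j (s i j)) ∧
      (∀ i < k + 1, ∑ j ∈ range (k + 1), s i j = RR n k) ∧
      (∀ j < k + 1, ∑ i ∈ range (k + 1), s i j = RR n k) := by
  classical
  have hY := YY_pos (n := n) (k := k)
  set G0 : ℕ := ∑ i ∈ range k, gcode n k (c i) with hG0
  have hG0lt : G0 < N2 n k := sum_gcode_lt c hc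
  have hYN : YY n k = N2 n k * N2 n k := by unfold YY; ring
  -- bounds
  have hb1 : ∀ i < k, k * gcode n k (c i) + N2 n k * G0 < YY n k := by
    intro i hi
    have h1 := k_gcode_lt (k := k) (hc i hi)
    rw [hYN]
    have : N2 n k * (G0 + 1) ≤ N2 n k * N2 n k := Nat.mul_le_mul_left _ hG0lt
    nlinarith
  have hb2 : ∀ j < k, G0 + N2 n k * (k * gcode n k (c j)) < YY n k := by
    intro j hj
    have h1 := k_gcode_lt (k := k) (hc j hj)
    rw [hYN]
    have : N2 n k * (k * gcode n k (c j) + 1) ≤ N2 n k * N2 n k := Nat.mul_le_mul_left _ h1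
    nlinarith
  have hb3 : G0 + N2 n k * G0 < YY n k := by
    rw [hYN]
    have : N2 n k * (G0 + 1) ≤ N2 n k * N2 n k := Nat.mul_le_mul_left _ hG0lt
    nlinarith
  have hb4 : ∀ i < k, ∀ j < k, gcode n k (c i) + N2 n k * gcode n k (c j) < YY n k := by
    intro i hi j hj
    have hk : 1 ≤ k := by omega
    have g1 : gcode n k (c i) < N2 n k :=
      lt_of_le_of_lt (Nat.le_mul_of_pos_left _ hk) (k_gcode_lt (hc i hi))
    have g2 : gcode n k (c j) < N2 n k :=
      lt_of_le_of_lt (Nat.le_mul_of_pos_left _ hk) (k_gcode_lt (hc j hj))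
    rw [hYN]
    have : N2 n k * (gcode n k (c j) + 1) ≤ N2 n k * N2 n k := Nat.mul_le_mul_left _ g2
    nlinarith
  have hWle : B2 n k + YY n k ≤ WW n k := by
    unfold B2 WW XX
    nlinarith [mul_nonneg (Nat.zero_le k) (Nat.zero_le (YY n k)),
      mul_nonneg (Nat.zero_le (k * k)) (Nat.zero_le (YY n k))]
  have hBle : BB n k ≤ B2 n k := by unfold B2; omega
  let s : ℕ → ℕ → ℕ := fun i j =>
    if i = 0 then
      (if j = 0 then BB n k + YY n k + k * (G0 + N2 n k * G0)
        else B2 n k + YY n k - (G0 + N2 n k * (k * gcode n k (c (j - 1)))))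
    else
      (if j = 0 then B2 n k + YY n k - (k * gcode n k (c (i - 1)) + N2 n k * G0)
        else B2 n k + (gcode n k (c (i - 1)) + N2 n k * gcode n k (c (j - 1))))
  have s00 : s 0 0 = BB n k + YY n k + k * (G0 + N2 n k * G0) := by simp [s]
  have s0j : ∀ j, s 0 (j + 1) = B2 n k + YY n k - (G0 + N2 n k * (k * gcode n k (c j))) := by
    intro j; simp [s]
  have si0 : ∀ i, s (i + 1) 0 = B2 n k + YY n k - (k * gcode n k (c i) + N2 n k * G0) := by
    intro i; simp [s]
  have sij : ∀ i j, s (i + 1) (j + 1) =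
      B2 n k + (gcode n k (c i) + N2 n k * gcode n k (c j)) := by
    intro i j; simp [s]
  have hRR : RR n k = k * B2 n k + (B2 n k + YY n k) := by unfold RR; ring
  refine ⟨s, ?_, ?_, ?_⟩
  · intro i hi j hj
    rcases i with _ | i <;> rcases j with _ | j
    · rw [s00]
      refine ⟨by omega, ?_, Or.inl ⟨rfl, rfl⟩⟩
      have h1 : k * (G0 + N2 n k * G0) ≤ k * YY n k := Nat.mul_le_mul_left _ hb3.le
      have h2 : B2 n k = BB n k + k * YY n k := rfl
      omega
    · rw [s0j]
      have h1 := hb2 j (by omega)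
      refine ⟨by omega, by omega, Or.inr (Or.inr (Or.inr (Or.inr (Or.inr
        ⟨rfl, by omega, c j, hc j (by omega), G0, hG0lt, ?_⟩))))⟩
      omega
    · rw [si0]
      have h1 := hb1 i (by omega)
      refine ⟨by omega, by omega, Or.inr (Or.inr (Or.inr (Or.inr (Or.inl
        ⟨by omega, rfl, c i, hc i (by omega), G0, hG0lt, ?_⟩))))⟩
      omega
    · rw [sij]
      have h1 := hb4 i (by omega) j (by omega)
      refine ⟨by omega, by omega, Or.inr (Or.inr (Or.inr (Or.inl
        ⟨by omega, by omega, c i, hc i (by omega), c j, hc j (by omega), ?_, rfl⟩)))⟩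
      by_cases hij : i = j
      · left; exact ⟨by rw [hij], by rw [hij]⟩
      · right; exact ⟨by omega, hE i (by omega) j (by omega) hij⟩
  · intro i hi
    rw [Finset.sum_range_succ']
    rcases i with _ | i
    · rw [s00, Finset.sum_congr rfl (fun j _ => s0j j)]
      have h1 : ∑ j ∈ range k, (B2 n k + YY n k - (G0 + N2 n k * (k * gcode n k (c j)))) +
          ∑ j ∈ range k, (G0 + N2 n k * (k * gcode n k (c j))) = k * (B2 n k + YY n k) := by
        rw [← Finset.sum_add_distrib]
        have : ∀ j ∈ range k, (B2 n k + YY n k - (G0 + N2 n k * (k * gcode n k (c j)))) +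
            (G0 + N2 n k * (k * gcode n k (c j))) = B2 n k + YY n k := by
          intro j hj
          have := hb2 j (Finset.mem_range.mp hj)
          omega
        rw [Finset.sum_congr rfl this]
        simp
      have h2 : ∑ j ∈ range k, (G0 + N2 n k * (k * gcode n k (c j))) =
          k * (G0 + N2 n k * G0) := by
        rw [Finset.sum_add_distrib, ← Finset.mul_sum, ← Finset.mul_sum, ← hG0]
        simp
        ring
      rw [h2] at h1
      have h3 : B2 n k = BB n k + k * YY n k := rfl
      have h4 : k * (B2 n k + YY n k) = k * B2 n k + k * YY n k := by ring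
      rw [hRR]
      omega
    · rw [si0, Finset.sum_congr rfl (fun j _ => sij i j)]
      have h1 : ∑ j ∈ range k, (B2 n k + (gcode n k (c i) + N2 n k * gcode n k (c j))) =
          k * B2 n k + (k * gcode n k (c i) + N2 n k * G0) := by
        rw [Finset.sum_add_distrib, Finset.sum_add_distrib, ← Finset.mul_sum, ← hG0]
        simp
      rw [h1, hRR]
      have := hb1 i (by omega)
      omega
  · intro j hj
    rw [Finset.sum_range_succ']
    rcases j with _ | j
    · rw [s00, Finset.sum_congr rfl (fun i _ => si0 i)]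
      have h1 : ∑ i ∈ range k, (B2 n k + YY n k - (k * gcode n k (c i) + N2 n k * G0)) +
          ∑ i ∈ range k, (k * gcode n k (c i) + N2 n k * G0) = k * (B2 n k + YY n k) := by
        rw [← Finset.sum_add_distrib]
        have : ∀ i ∈ range k, (B2 n k + YY n k - (k * gcode n k (c i) + N2 n k * G0)) +
            (k * gcode n k (c i) + N2 n k * G0) = B2 n k + YY n k := by
          intro i hi
          have := hb1 i (Finset.mem_range.mp hi)
          omega
        rw [Finset.sum_congr rfl this]
        simp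
      have h2 : ∑ i ∈ range k, (k * gcode n k (c i) + N2 n k * G0) =
          k * (G0 + N2 n k * G0) := by
        rw [Finset.sum_add_distrib, ← Finset.mul_sum, ← hG0]
        simp
        ring
      rw [h2] at h1
      have h3 : B2 n k = BB n k + k * YY n k := rfl
      have h4 : k * (B2 n k + YY n k) = k * B2 n k + k * YY n k := by ring
      rw [hRR]
      omega
    · rw [s0j, Finset.sum_congr rfl (fun i _ => sij i j)]
      have h1 : ∑ i ∈ range k, (B2 n k + (gcode n k (c i) + N2 n k * gcode n k (c j))) =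
          k * B2 n k + (G0 + N2 n k * (k * gcode n k (c j))) := by
        rw [Finset.sum_add_distrib, Finset.sum_add_distrib, ← hG0]
        simp
        ring
      rw [h1, hRR]
      have := hb2 j (by omega)
      omega

/-- Adjacency of a graph on `Fin n` as a relation on natural numbers. -/
def adjNat {n : ℕ} (G : SimpleGraph (Fin n)) (u w : ℕ) : Prop :=
  ∃ (hu : u < n) (hw : w < n), G.Adj ⟨u, hu⟩ ⟨w, hw⟩

lemma clique_iff {n k : ℕ} (G : SimpleGraph (Fin n)) :
    (∃ t : Finset (Fin n), G.IsNClique k t) ↔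
    ∃ c : ℕ → ℕ, (∀ i < k, c i < n) ∧ ∀ i < k, ∀ j < k, i ≠ j → adjNat G (c i) (c j) := by
  classical
  constructor
  · rintro ⟨t, ht⟩
    obtain ⟨h1, h2⟩ := ht
    let e := t.equivFinOfCardEq h2
    refine ⟨fun i => if h : i < k then ((e.symm ⟨i, h⟩ : t) : Fin n) else 0, ?_, ?_⟩
    · intro i hi
      simp only [hi, dif_pos]
      exact Fin.isLt _
    · intro i hi j hj hij
      simp only [hi, hj, dif_pos]
      refine ⟨Fin.isLt _, Fin.isLt _, ?_⟩
      apply h1
      · exact (e.symm ⟨i, hi⟩).2
      · exact (e.symm ⟨j, hj⟩).2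
      · intro h
        have h3 : e.symm ⟨i, hi⟩ = e.symm ⟨j, hj⟩ := Subtype.ext (by simpa using h)
        have h4 := e.symm.injective h3
        simp only [Fin.mk.injEq] at h4
        exact hij h4
  · rintro ⟨c, hc, hE⟩
    let f : Fin k → Fin n := fun i => ⟨c i, hc i i.isLt⟩
    have hadj : ∀ i j : Fin k, i ≠ j → G.Adj (f i) (f j) := by
      intro i j hij
      obtain ⟨_, _, h⟩ := hE i i.isLt j j.isLt (fun h => hij (Fin.ext h))
      exact h
    have hinj : Function.Injective f := by
      intro i j h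
      by_contra hij
      have := hadj i j hij
      rw [h] at this
      exact G.loopless.irrefl _ this
    refine ⟨Finset.univ.map ⟨f, hinj⟩, ?_⟩
    constructor
    · intro x hx y hy hxy
      simp only [Finset.coe_map, Function.Embedding.coeFn_mk, Finset.coe_univ,
        Set.image_univ, Set.mem_range] at hx hy
      obtain ⟨i, rfl⟩ := hx
      obtain ⟨j, rfl⟩ := hy
      apply hadj
      intro h; apply hxy; rw [h]
    · simp

/-- The graph of the reduction. -/
def redGraph (n k : ℕ) (G : SimpleGraph (Fin n)) :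
    SimpleGraph (Fin ((k + 1) * (k + 1) * WW n k)) :=
  gridGraph (k + 1) (WW n k) (cellSet n k (adjNat G))

/-- The size bound of the reduction. -/
def redK (n k : ℕ) : ℕ := (k + 1) * RR n k

/-- The threshold of the reduction. -/
def redM (n k : ℕ) : ℕ := threshold (k + 1) (WW n k) (BB n k) (RR n k)

/-- **Correctness of the reduction.** -/
theorem red_correct (n k : ℕ) (G : SimpleGraph (Fin n)) :
    (∃ t : Finset (Fin n), G.IsNClique k t) ↔
    ∃ S : Finset (Fin ((k + 1) * (k + 1) * WW n k)), S.card ≤ redK n k ∧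
      redM n k ≤ edgesIn (redGraph n k G) S := by
  rw [clique_iff]
  unfold redGraph redK redM
  rw [grid_main (cellSet_good n k (adjNat G)) (params_ineq1 n k) (params_ineq2 n k)]
  constructor
  · rintro ⟨c, hc, hE⟩
    exact sums_of_clique c hc hE
  · rintro ⟨s, h1, h2, h3⟩
    exact clique_of_sums s h1 h2 h3

/-- **Modular-width of the reduction graph.** -/
theorem red_width (n k : ℕ) (G : SimpleGraph (Fin n)) :
    HasWidth (redGraph n k G) ((k + 1) * (k + 1)) Set.univ :=
  grid_width (cellSet_good n k (adjNat G))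

theorem red_modularWidth (n k : ℕ) (G : SimpleGraph (Fin n)) :
    modularWidth (redGraph n k G) ≤ (k + 1) * (k + 1) :=
  Nat.sInf_le (red_width n k G)

end Pool.Agent.H7.DkS
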