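import Mathlib
import Pool.Agent.H7.DkS.Clique
import Pool.Agent.H7.Comp.Arith

/-!
# The reduction is computable in polynomial time
-/

namespace Pool.Agent.H7.DkS

open Pool.Agent.H7.Comp

variable {α : Type} [Enc α]

/-- Adjacency read off from an adjacency matrix given as list of rows. -/
def matAdj (rows : List (List Bool)) (u w : ℕ) : Prop := (rows.getD u []).getD w false = true

lemma ptp_matAdj {r : α → List (List Bool)} {u w : α → ℕ} (hr : PT r) (hu : PT u) (hw : PT w) :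
    PTp (fun x => matAdj (r x) (u x) (w x)) :=
  PTp.ofBool (PT.getD (PT.getD hr hu (PT.const [])) hw (PT.const false))

section
variable {n k : α → ℕ} (hn : PT n) (hk : PT k)
include hn hk

lemma pt_N1 : PT (fun x => N1 (n x) (k x)) := (hk.mul hn).add (PT.const 1)

lemma pt_gcode {u : α → ℕ} (hu : PT u) : PT (fun x => gcode (n x) (k x) (u x)) :=
  hu.add ((pt_N1 hn hk).mul hu.sq)

lemma pt_N2 : PT (fun x => N2 (n x) (k x)) :=
  (hk.mul (hn.add ((pt_N1 hn hk).mul hn.sq))).add (PT.const 1)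

lemma pt_YY : PT (fun x => YY (n x) (k x)) := (pt_N2 hn hk).sq

lemma pt_XX : PT (fun x => XX (n x) (k x)) :=
  (((hk.add (PT.const 1)).mul (hk.add (PT.const 1))).mul (pt_YY hn hk)).add (PT.const 1)

lemma pt_BB : PT (fun x => BB (n x) (k x)) :=
  (((hk.add (PT.const 1)).mul (hk.add (PT.const 1))).mul (pt_XX hn hk)).add (PT.const 1)

lemma pt_WW : PT (fun x => WW (n x) (k x)) := (pt_BB hn hk).add (pt_XX hn hk)

lemma pt_B2 : PT (fun x => B2 (n x) (k x)) := (pt_BB hn hk).add (hk.mul (pt_YY hn hk))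

lemma pt_RR : PT (fun x => RR (n x) (k x)) :=
  ((hk.add (PT.const 1)).mul (pt_B2 hn hk)).add (pt_YY hn hk)

lemma pt_redN : PT (fun x => (k x + 1) * (k x + 1) * WW (n x) (k x)) :=
  ((hk.add (PT.const 1)).mul (hk.add (PT.const 1))).mul (pt_WW hn hk)

lemma pt_redK : PT (fun x => redK (n x) (k x)) := (hk.add (PT.const 1)).mul (pt_RR hn hk)

lemma pt_redM : PT (fun x => redM (n x) (k x)) := by
  have hq : PT (fun x => k x + 1) := hk.add (PT.const 1)
  have hR := pt_RR hn hk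
  have hB := pt_BB hn hk
  have hW := pt_WW hn hk
  exact ((((hq.mul hR).mul ((hq.mul hR).sub (PT.const 1))).div (PT.const 2)).add
    (hW.mul (hq.mul hR))).sub ((hq.mul hR.sq).add ((hq.mul hq).mul (hB.mul (hW.sub hB))))

lemma ptp_realElt {r : α → List (List Bool)} {i j a : α → ℕ} (hr : PT r) (hi : PT i)
    (hj : PT j) (ha : PT a) :
    PTp (fun x => realElt (n x) (k x) (matAdj (r x)) (i x) (j x) (a x)) := by
  have h0 : PT (fun _ : α => 0) := PT.const 0
  -- contexts
  have c1 : PT (fun p : (α × ℕ) × ℕ => p.1.1) := PT.fst.comp PT.fst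
  have cu : PT (fun p : (α × ℕ) × ℕ => p.1.2) := PT.snd.comp PT.fst
  have cw : PT (fun p : (α × ℕ) × ℕ => p.2) := PT.snd
  have hn2 := hn.comp c1
  have hk2 := hk.comp c1
  have hi2 := hi.comp c1
  have hj2 := hj.comp c1
  have ha2 := ha.comp c1
  have hr2 := hr.comp c1
  refine PTp.or ?_ (PTp.or ?_ ?_)
  · refine (PTp.lt h0 hi).and ((PTp.lt h0 hj).and ?_)
    refine PTp.bex hn (PTp.bex (n := fun p : α × ℕ => n p.1)
      (P := fun p w => ((i p.1 = j p.1 ∧ p.2 = w) ∨ (i p.1 ≠ j p.1 ∧ matAdj (r p.1) p.2 w)) ∧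
        a p.1 = B2 (n p.1) (k p.1) + (gcode (n p.1) (k p.1) p.2 +
          N2 (n p.1) (k p.1) * gcode (n p.1) (k p.1) w)) (hn.comp PT.fst) ?_)
    refine PTp.and (PTp.or (PTp.and (PTp.eq hi2 hj2) (PTp.eq cu cw))
      (PTp.and (PTp.eq hi2 hj2).not (ptp_matAdj hr2 cu cw))) ?_
    exact PTp.eq ha2 ((pt_B2 hn2 hk2).add ((pt_gcode hn2 hk2 cu).add
      ((pt_N2 hn2 hk2).mul (pt_gcode hn2 hk2 cw))))
  · refine (PTp.lt h0 hi).and ((PTp.eq hj h0).and ?_)
    refine PTp.bex hn (PTp.bex (n := fun p : α × ℕ => N2 (n p.1) (k p.1))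
      (P := fun p z => a p.1 + (k p.1 * gcode (n p.1) (k p.1) p.2 + N2 (n p.1) (k p.1) * z) =
        B2 (n p.1) (k p.1) + YY (n p.1) (k p.1)) (pt_N2 (hn.comp PT.fst) (hk.comp PT.fst)) ?_)
    exact PTp.eq (ha2.add ((hk2.mul (pt_gcode hn2 hk2 cu)).add ((pt_N2 hn2 hk2).mul cw)))
      ((pt_B2 hn2 hk2).add (pt_YY hn2 hk2))
  · refine (PTp.eq hi h0).and ((PTp.lt h0 hj).and ?_)
    refine PTp.bex hn (PTp.bex (n := fun p : α × ℕ => N2 (n p.1) (k p.1))
      (P := fun p z => a p.1 + (z + N2 (n p.1) (k p.1) * (k p.1 * gcode (n p.1) (k p.1) p.2)) =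
        B2 (n p.1) (k p.1) + YY (n p.1) (k p.1)) (pt_N2 (hn.comp PT.fst) (hk.comp PT.fst)) ?_)
    exact PTp.eq (ha2.add (cw.add ((pt_N2 hn2 hk2).mul (hk2.mul (pt_gcode hn2 hk2 cu)))))
      ((pt_B2 hn2 hk2).add (pt_YY hn2 hk2))

lemma ptp_cellSet {r : α → List (List Bool)} {i j a : α → ℕ} (hr : PT r) (hi : PT i)
    (hj : PT j) (ha : PT a) :
    PTp (fun x => cellSet (n x) (k x) (matAdj (r x)) (i x) (j x) (a x)) := by
  have h0 : PT (fun _ : α => 0) := PT.const 0
  exact (PTp.le (pt_BB hn hk) ha).and ((PTp.le ha (pt_WW hn hk)).and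
    (((PTp.eq hi h0).and (PTp.eq hj h0)).or ((PTp.eq ha (pt_BB hn hk)).or
      ((PTp.eq ha (pt_WW hn hk)).or (ptp_realElt hn hk hr hi hj ha)))))

lemma ptp_gad {r : α → List (List Bool)} {i j v v' : α → ℕ} (hr : PT r) (hi : PT i)
    (hj : PT j) (hv : PT v) (hv' : PT v') :
    PTp (fun x => gad (cellSet (n x) (k x) (matAdj (r x)) (i x) (j x)) (WW (n x) (k x))
      (v x) (v' x)) := by
  have hW1 : PT (fun x => WW (n x) (k x) + 1) := (pt_WW hn hk).add (PT.const 1)
  have ca : PT (fun p : α × ℕ => p.2) := PT.snd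
  have hn1 := hn.comp (PT.fst (α := α) (β := ℕ))
  have hk1 := hk.comp (PT.fst (α := α) (β := ℕ))
  have hi1 := hi.comp (PT.fst (α := α) (β := ℕ))
  have hj1 := hj.comp (PT.fst (α := α) (β := ℕ))
  have hr1 := hr.comp (PT.fst (α := α) (β := ℕ))
  have hv1 := hv.comp (PT.fst (α := α) (β := ℕ))
  have hv1' := hv'.comp (PT.fst (α := α) (β := ℕ))
  have hset := ptp_cellSet hn1 hk1 hr1 hi1 hj1 ca
  have hA : PTp (fun x => ∀ a, a < WW (n x) (k x) + 1 →
      (¬ cellSet (n x) (k x) (matAdj (r x)) (i x) (j x) a ∨ (¬ v x < a ∨ v' x < a))) := by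
    refine PTp.ball hW1 (P := fun x a => ¬ cellSet (n x) (k x) (matAdj (r x)) (i x) (j x) a ∨
      (¬ v x < a ∨ v' x < a)) ?_
    exact hset.not.or ((PTp.lt hv1 ca).not.or (PTp.lt hv1' ca))
  have hB : PTp (fun x => ∃ a, a < WW (n x) (k x) + 1 ∧
      (cellSet (n x) (k x) (matAdj (r x)) (i x) (j x) a ∧ (v' x < a ∧
        v x + a < WW (n x) (k x)))) := by
    refine PTp.bex hW1 (P := fun x a => cellSet (n x) (k x) (matAdj (r x)) (i x) (j x) a ∧
      (v' x < a ∧ v x + a < WW (n x) (k x))) ?_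
    exact hset.and ((PTp.lt hv1' ca).and (PTp.lt (hv1.add ca) (pt_WW hn1 hk1)))
  refine (hA.or hB).congr (fun x => ?_)
  unfold gad
  apply or_congr
  · constructor
    · intro h a ha hva
      have hle : a ≤ WW (n x) (k x) := ha.2.1
      rcases h a (by omega) with h1 | h1 | h1
      · exact absurd ha h1
      · exact absurd hva h1
      · exact h1
    · intro h a _
      by_cases h1 : cellSet (n x) (k x) (matAdj (r x)) (i x) (j x) a
      · by_cases h2 : v x < a
        · exact Or.inr (Or.inr (h a h1 h2))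
        · exact Or.inr (Or.inl h2)
      · exact Or.inl h1
  · constructor
    · rintro ⟨a, _, h⟩
      exact ⟨a, h⟩
    · rintro ⟨a, h⟩
      have hle : a ≤ WW (n x) (k x) := h.1.2.1
      exact ⟨a, by omega, h⟩

lemma ptp_gridAdj {r : α → List (List Bool)} {u v : α → ℕ} (hr : PT r) (hu : PT u)
    (hv : PT v) :
    PTp (fun x => gridAdj (k x + 1) (WW (n x) (k x)) (cellSet (n x) (k x) (matAdj (r x)))
      (u x) (v x)) := by
  have hq : PT (fun x => k x + 1) := hk.add (PT.const 1)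
  have hW := pt_WW hn hk
  have cu : PT (fun x => u x / WW (n x) (k x)) := hu.div hW
  have cv : PT (fun x => v x / WW (n x) (k x)) := hv.div hW
  have mu : PT (fun x => u x % WW (n x) (k x)) := hu.mod hW
  have mv : PT (fun x => v x % WW (n x) (k x)) := hv.mod hW
  have iu : PT (fun x => u x / WW (n x) (k x) / (k x + 1)) := cu.div hq
  have ju : PT (fun x => u x / WW (n x) (k x) % (k x + 1)) := cu.mod hq
  have iv : PT (fun x => v x / WW (n x) (k x) / (k x + 1)) := cv.div hq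
  have jv : PT (fun x => v x / WW (n x) (k x) % (k x + 1)) := cv.mod hq
  exact ((PTp.eq cu cv).and (((PTp.lt mu mv).and (ptp_gad hn hk hr iu ju mu mv)).or
    ((PTp.lt mv mu).and (ptp_gad hn hk hr iu ju mv mu)))).or
    ((PTp.eq iu iv).not.and (PTp.eq ju jv).not)

end

open Classical in
/-- Adjacency bit of the reduction graph. -/
noncomputable def redBit (x : ℕ × List (List Bool) × ℕ) (u v : ℕ) : Bool :=
  decide (gridAdj (x.2.2 + 1) (WW x.1 x.2.2) (cellSet x.1 x.2.2 (matAdj x.2.1)) u v)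

/-- Number of vertices of the reduction graph. -/
def redSize (x : ℕ × List (List Bool) × ℕ) : ℕ := (x.2.2 + 1) * (x.2.2 + 1) * WW x.1 x.2.2

/-- A row of the adjacency matrix of the reduction graph. -/
noncomputable def redRow (x : ℕ × List (List Bool) × ℕ) (u : ℕ) : List Bool :=
  (List.range (redSize x)).map (redBit x u)

/-- The reduction as a function on encoded instances. -/
noncomputable def redFun (x : ℕ × List (List Bool) × ℕ) :
    ℕ × List (List Bool) × ℕ × ℕ :=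
  (redSize x, (List.range (redSize x)).map (redRow x), redK x.1 x.2.2, redM x.1 x.2.2)

lemma pt_redSize : PT redSize := by
  have hn : PT (fun x : ℕ × List (List Bool) × ℕ => x.1) := PT.fst
  have hk : PT (fun x : ℕ × List (List Bool) × ℕ => x.2.2) := PT.snd.comp PT.snd
  exact pt_redN hn hk

lemma pt_redBit : PT (fun p : ((ℕ × List (List Bool) × ℕ) × ℕ) × ℕ => redBit p.1.1 p.1.2 p.2) := by
  classical
  have hn : PT (fun x : ℕ × List (List Bool) × ℕ => x.1) := PT.fst
  have hr : PT (fun x : ℕ × List (List Bool) × ℕ => x.2.1) := PT.fst.comp PT.snd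
  have hk : PT (fun x : ℕ × List (List Bool) × ℕ => x.2.2) := PT.snd.comp PT.snd
  have g1 : PT (fun p : ((ℕ × List (List Bool) × ℕ) × ℕ) × ℕ => p.1.1) := PT.fst.comp PT.fst
  have g2 : PT (fun p : ((ℕ × List (List Bool) × ℕ) × ℕ) × ℕ => p.1.2) := PT.snd.comp PT.fst
  have g3 : PT (fun p : ((ℕ × List (List Bool) × ℕ) × ℕ) × ℕ => p.2) := PT.snd
  exact PTp.toPT (ptp_gridAdj (hn.comp g1) (hk.comp g1) (hr.comp g1) g2 g3)

lemma pt_redRow : PT (fun p : (ℕ × List (List Bool) × ℕ) × ℕ => redRow p.1 p.2) :=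
  PT.mapRange (n := fun p : (ℕ × List (List Bool) × ℕ) × ℕ => redSize p.1)
    (f := fun p v => redBit p.1 p.2 v) (pt_redSize.comp PT.fst) pt_redBit

/-- **The reduction is computable in polynomial time.** -/
theorem pt_redFun : PT redFun := by
  have hn : PT (fun x : ℕ × List (List Bool) × ℕ => x.1) := PT.fst
  have hk : PT (fun x : ℕ × List (List Bool) × ℕ => x.2.2) := PT.snd.comp PT.snd
  exact pt_redSize.pair ((PT.mapRange pt_redSize pt_redRow).pair
    ((pt_redK hn hk).pair (pt_redM hn hk)))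

end Pool.Agent.H7.DkS
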